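import Pool.Agent.TH667.PCG.Dist

/-!
# Construction of weighted trees: paths, attaching leaves
-/

set_option autoImplicit false

namespace Pool.Agent.TH667.PCG

open SimpleGraph

section Attach

variable {H V : Type} (T : SimpleGraph H) (att : V → H) (w : Sym2 H → ℝ) (l : V → ℝ)

/-- The graph `T` with a new vertex attached to `att v` for every `v`. -/
def attG : SimpleGraph (H ⊕ V) where
  Adj x y := match x, y with
    | Sum.inl a, Sum.inl b => T.Adj a b
    | Sum.inl a, Sum.inr v => a = att v
    | Sum.inr v, Sum.inl a => a = att v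
    | Sum.inr _, Sum.inr _ => False
  symm := ⟨fun x y h => by
    rcases x with a | v <;> rcases y with b | u <;> simp only at h ⊢
    · exact h.symm
    · exact h
    · exact h⟩
  loopless := ⟨fun x h => by
    rcases x with a | v
    · exact T.loopless.irrefl a h
    · exact h⟩

/-- The weights after attaching new vertices. -/
def attW : Sym2 (H ⊕ V) → ℝ := Sym2.lift ⟨fun x y => match x, y with
    | Sum.inl a, Sum.inl b => w s(a, b)
    | Sum.inl _, Sum.inr v => l v
    | Sum.inr v, Sum.inl _ => l v
    | Sum.inr _, Sum.inr _ => 0, fun x y => by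
    rcases x with a | v <;> rcases y with b | u <;> simp only
    rw [Sym2.eq_swap]⟩

variable {T att w l}

theorem attW_inl (a b : H) : attW (V := V) w l s(Sum.inl a, Sum.inl b) = w s(a, b) := rfl
theorem attW_lr (a : H) (v : V) : attW w l s(Sum.inl a, Sum.inr v) = l v := rfl
theorem attW_rl (a : H) (v : V) : attW w l s(Sum.inr v, Sum.inl a) = l v := rfl

/-- The inclusion of the old graph. -/
def inlHom : T →g attG T att := ⟨Sum.inl, fun h => h⟩

theorem wlen_map {a b : H} (p : T.Walk a b) :
    wlen (attW w l) (p.map (inlHom (att := att))) = wlen w p := by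
  induction p with
  | nil => simp [wlen]
  | cons h p ih =>
    rw [Walk.map_cons, wlen_cons, wlen_cons, ih]
    rfl

theorem map_path {a b : H} {p : T.Walk a b} (hp : p.IsPath) :
    ∃ q : (attG T att).Walk (Sum.inl a) (Sum.inl b), q.IsPath ∧
      wlen (attW w l) q = wlen w p ∧ ∀ v, Sum.inr v ∉ q.support := by
  have h : ∀ v : V, Sum.inr v ∉ (p.map (inlHom (att := att))).support := by
    intro v
    rw [Walk.support_map, List.mem_map]
    rintro ⟨x, -, hx⟩
    exact absurd hx (by simp [inlHom])
  exact ⟨p.map (inlHom (att := att)), Walk.IsPath.map Sum.inl_injective hp, wlen_map p, h⟩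

theorem att_path1 {b : H} {v : V} {p : T.Walk (att v) b} (hp : p.IsPath) :
    ∃ q : (attG T att).Walk (Sum.inr v) (Sum.inl b), q.IsPath ∧
      wlen (attW w l) q = l v + wlen w p ∧ ∀ u, Sum.inr u ∈ q.support → u = v := by
  have h : (attG T att).Adj (Sum.inr v) (Sum.inl (att v)) := rfl
  obtain ⟨q, hq, hl, hs⟩ := map_path (att := att) (w := w) (l := l) hp
  refine ⟨Walk.cons h q, ?_, ?_, ?_⟩
  · rw [Walk.cons_isPath_iff]
    exact ⟨hq, hs v⟩
  · rw [wlen_cons, hl]
    rfl
  · intro u hu
    rw [Walk.support_cons, List.mem_cons] at hu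
    rcases hu with hu | hu
    · exact Sum.inr_injective hu
    · exact absurd hu (hs u)

theorem att_path2 {u v : V} (huv : u ≠ v) {p : T.Walk (att u) (att v)} (hp : p.IsPath) :
    ∃ q : (attG T att).Walk (Sum.inr u) (Sum.inr v), q.IsPath ∧
      wlen (attW w l) q = l u + l v + wlen w p := by
  obtain ⟨q, hq, hl, hs⟩ := att_path1 (w := w) (l := l) hp
  have h : (attG T att).Adj (Sum.inl (att v)) (Sum.inr v) := rfl
  refine ⟨q.concat h, ?_, ?_⟩
  · exact hq.concat (fun h' => huv (hs v h').symm) h
  · rw [Walk.concat_eq_append, wlen_append, hl, wlen_cons, attW_lr]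
    simp [wlen]
    ring

theorem attG_isTree [Finite H] [Finite V] (hT : T.IsTree) : (attG T att).IsTree := by
  classical
  rw [isTree_iff_connected_and_card]
  have hne : Nonempty H := hT.connected.nonempty
  have hconn : (attG T att).Connected := by
    refine ⟨?_⟩
    have h1 : ∀ x : H ⊕ V, ∀ b : H, (attG T att).Reachable x (Sum.inl b) := by
      intro x b
      rcases x with a | v
      · obtain ⟨p, -⟩ := (hT.existsUnique_path a b).exists
        exact ⟨p.map inlHom⟩
      · obtain ⟨p, hp⟩ := (hT.existsUnique_path (att v) b).exists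
        obtain ⟨q, -⟩ := att_path1 (w := fun _ => 0) (l := fun _ => 0) hp
        exact ⟨q⟩
    intro x y
    exact (h1 x (Classical.arbitrary H)).trans (h1 y (Classical.arbitrary H)).symm
  refine ⟨hconn, ?_⟩
  have hle : Nat.card (attG T att).edgeSet ≤ Nat.card T.edgeSet + Nat.card V := by
    have hsub : (attG T att).edgeSet ⊆ (Sym2.map (Sum.inl : H → H ⊕ V)) '' T.edgeSet ∪
        Set.range (fun v : V => s(Sum.inl (att v), (Sum.inr v : H ⊕ V))) := by
      intro e he
      induction e using Sym2.ind with
      | _ x y =>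
        rw [mem_edgeSet] at he
        rcases x with a | v <;> rcases y with b | u
        · exact Or.inl ⟨s(a, b), he, rfl⟩
        · have : a = att u := he
          subst this
          exact Or.inr ⟨u, rfl⟩
        · have : b = att v := he
          subst this
          exact Or.inr ⟨v, Sym2.eq_swap⟩
        · exact False.elim he
    calc Nat.card (attG T att).edgeSet = (attG T att).edgeSet.ncard := rfl
      _ ≤ _ := Set.ncard_le_ncard hsub (Set.toFinite _)
      _ ≤ _ := Set.ncard_union_le _ _
      _ ≤ Nat.card T.edgeSet + Nat.card V := by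
        refine add_le_add (Set.ncard_image_le (Set.toFinite _)) ?_
        rw [← Set.image_univ, ← Set.ncard_univ]
        exact Set.ncard_image_le (Set.toFinite _)
  have h1 := (isTree_iff_connected_and_card.1 hT).2
  have h2 := hconn.card_vert_le_card_edgeSet_add_one
  rw [Nat.card_sum] at h2 ⊢
  omega

theorem attW_pos (hw : ∀ e ∈ T.edgeSet, 0 < w e) (hl : ∀ v, 0 < l v) :
    ∀ e ∈ (attG T att).edgeSet, 0 < attW w l e := by
  intro e he
  induction e using Sym2.ind with
  | _ x y =>
    rw [mem_edgeSet] at he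
    rcases x with a | v <;> rcases y with b | u
    · exact hw s(a, b) he
    · exact hl u
    · exact hl v
    · exact False.elim he

theorem tdist_inl (hT : T.IsTree) (hT' : (attG T att).IsTree) (a b : H) :
    tdist hT' (attW w l) (Sum.inl a) (Sum.inl b) = tdist hT w a b := by
  obtain ⟨p, hp, h⟩ := exists_path hT w a b
  obtain ⟨q, hq, h1, -⟩ := map_path (att := att) (w := w) (l := l) hp
  rw [← h, ← h1]
  exact (wlen_eq hT' _ _ hq).symm

theorem tdist_rl (hT : T.IsTree) (hT' : (attG T att).IsTree) (v : V) (b : H) :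
    tdist hT' (attW w l) (Sum.inr v) (Sum.inl b) = l v + tdist hT w (att v) b := by
  obtain ⟨p, hp, h⟩ := exists_path hT w (att v) b
  obtain ⟨q, hq, h1, -⟩ := att_path1 (w := w) (l := l) hp
  rw [← h, ← h1]
  exact (wlen_eq hT' _ _ hq).symm

theorem tdist_rr (hT : T.IsTree) (hT' : (attG T att).IsTree) {u v : V} (huv : u ≠ v) :
    tdist hT' (attW w l) (Sum.inr u) (Sum.inr v) = l u + l v + tdist hT w (att u) (att v) := by
  obtain ⟨p, hp, h⟩ := exists_path hT w (att u) (att v)
  obtain ⟨q, hq, h1⟩ := att_path2 (w := w) (l := l) huv hp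
  rw [← h, ← h1]
  exact (wlen_eq hT' _ _ hq).symm

end Attach

section Spine

/-- The path with `L + 1` vertices. -/
def spine (L : ℕ) : SimpleGraph (Fin (L + 1)) where
  Adj i j := i.1 + 1 = j.1 ∨ j.1 + 1 = i.1
  symm := ⟨fun _ _ h => h.symm⟩
  loopless := ⟨fun i h => by rcases h with h | h <;> omega⟩

theorem spine_path {L : ℕ} (c : ℝ) (i : ℕ) (hi : i < L + 1) : ∀ (k : ℕ) (hk : i + k < L + 1),
    ∃ p : (spine L).Walk ⟨i, hi⟩ ⟨i + k, hk⟩, p.IsPath ∧ (∀ x ∈ p.support, x.1 ≤ i + k) ∧
      wlen (fun _ => c) p = c * k := by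
  intro k
  induction k with
  | zero =>
    intro hk
    refine ⟨Walk.nil, Walk.IsPath.nil, ?_, by simp [wlen]⟩
    intro x hx
    rw [Walk.support_nil, List.mem_singleton] at hx
    subst hx
    simp
  | succ k ih =>
    intro hk
    obtain ⟨p, hp, hs, hl⟩ := ih (by omega)
    have h : (spine L).Adj ⟨i + k, by omega⟩ ⟨i + (k + 1), hk⟩ := Or.inl rfl
    refine ⟨p.concat h, hp.concat ?_ h, ?_, ?_⟩
    · intro hmem
      have := hs _ hmem
      simp only at this
      omega
    · intro x hx
      rw [Walk.support_concat, List.mem_append, List.mem_singleton] at hx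
      rcases hx with hx | rfl
      · have := hs x hx
        omega
      · simp
    · rw [Walk.concat_eq_append, wlen_append, hl]
      simp [wlen]
      ring

theorem spine_isTree (L : ℕ) : (spine L).IsTree := by
  classical
  rw [isTree_iff_connected_and_card]
  have h0 : ∀ x : Fin (L + 1), (spine L).Reachable ⟨0, by omega⟩ x := by
    rintro ⟨k, hk⟩
    obtain ⟨p, -⟩ := spine_path (L := L) 0 0 (by omega) k (by omega)
    have e : (⟨0 + k, by omega⟩ : Fin (L + 1)) = ⟨k, hk⟩ := by simp
    rw [← e]
    exact ⟨p⟩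
  have hconn : (spine L).Connected := ⟨fun x y => (h0 x).symm.trans (h0 y)⟩
  refine ⟨hconn, ?_⟩
  have hle : Nat.card (spine L).edgeSet ≤ L := by
    have hsub : (spine L).edgeSet ⊆ Set.range (fun i : Fin L =>
        s((⟨i.1, by omega⟩ : Fin (L + 1)), ⟨i.1 + 1, by omega⟩)) := by
      intro e he
      induction e using Sym2.ind with
      | _ x y =>
        rw [mem_edgeSet] at he
        rcases he with he | he
        · refine ⟨⟨x.1, by omega⟩, ?_⟩
          simp only
          congr
        · refine ⟨⟨y.1, by omega⟩, ?_⟩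
          simp only
          rw [Sym2.eq_swap]
          congr
    calc Nat.card (spine L).edgeSet = (spine L).edgeSet.ncard := rfl
      _ ≤ _ := Set.ncard_le_ncard hsub (Set.toFinite _)
      _ ≤ L := by
        rw [← Set.image_univ]
        refine (Set.ncard_image_le (Set.toFinite _)).trans ?_
        simp
  have h2 := hconn.card_vert_le_card_edgeSet_add_one
  rw [Nat.card_eq_fintype_card (α := Fin (L + 1)), Fintype.card_fin] at h2 ⊢
  omega

theorem spine_dist {L : ℕ} (c : ℝ) (i j : Fin (L + 1)) :
    tdist (spine_isTree L) (fun _ => c) i j = c * |(i.1 : ℝ) - (j.1 : ℝ)| := by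
  have key : ∀ i j : Fin (L + 1), i.1 ≤ j.1 →
      tdist (spine_isTree L) (fun _ => c) i j = c * |(i.1 : ℝ) - (j.1 : ℝ)| := by
    rintro ⟨i, hi⟩ ⟨j, hj⟩ hij
    simp only at hij
    obtain ⟨k, rfl⟩ := Nat.exists_eq_add_of_le hij
    obtain ⟨p, hp, -, hl⟩ := spine_path (L := L) c i hi k hj
    rw [← wlen_eq _ _ p hp, hl]
    have : ((i : ℝ) - ((i + k : ℕ) : ℝ)) = -(k : ℝ) := by push_cast; ring
    simp only
    rw [this, abs_neg, abs_of_nonneg (Nat.cast_nonneg k)]
  rcases le_total i.1 j.1 with h | h
  · exact key i j h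
  · rw [tdist_comm, key j i h, abs_sub_comm]

end Spine

end Pool.Agent.TH667.PCG
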