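import Pool.Agent.TH667.PCG.Realize

/-!
# From sandwiched leaf powers to generalized PCG recognition
-/

set_option autoImplicit false

namespace Pool.Agent.TH667.PCG

open SimpleGraph

/-- The labels of the vertices: `a u` (the vertex `u`), `b u` (its twin), four vertices `p i u`
forcing these two to be near, and four further vertices `g i`. -/
inductive Lab (B : Type) : Type
  | a (u : B) : Lab B
  | b (u : B) : Lab B
  | p (i : Fin 4) (u : B) : Lab B
  | g (i : Fin 4) : Lab B
  deriving DecidableEq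

variable {B : Type}

/-- The edges. -/
def LE (bE bS : B → B → Prop) : Lab B → Lab B → Prop
  | .a u, .a v => bE u v
  | .a u, .b v => u ≠ v ∧ (bS u v ∨ bS v u)
  | .p _ u, .a v => u = v
  | .p _ u, .b v => u = v
  | .p i u, .p j v => u = v ∧ ((i = 0 ∧ j = 1) ∨ (i = 2 ∧ j = 3))
  | .g _, .b _ => True
  | .g i, .g j => (i = 0 ∧ j = 1) ∨ (i = 2 ∧ j = 3)
  | _, _ => False

/-- The forbidden pairs. -/
def LS (bS : B → B → Prop) : Lab B → Lab B → Prop
  | .a u, .a v => bS u v
  | .b u, .b v => bS u v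
  | .a u, .b v => u = v
  | .p i u, .p j v => u = v ∧ i.1 < 2 ∧ 2 ≤ j.1
  | .g i, .g j => i.1 < 2 ∧ 2 ≤ j.1
  | _, _ => False

section Sound

variable {V : Type} {d : V → V → ℝ} {lo hi : ℝ}

/-- The four-point condition. -/
def FourPoint (d : V → V → ℝ) : Prop :=
  ∀ u v x y, d u v + d x y ≤ max (d u x + d v y) (d u y + d v x)

/-- The pair is near or far. -/
def Out (d : V → V → ℝ) (lo hi : ℝ) (u v : V) : Prop := d u v < lo ∨ hi < d u v

/-- The distance is in the interval. -/
def Mid (d : V → V → ℝ) (lo hi : ℝ) (u v : V) : Prop := lo ≤ d u v ∧ d u v ≤ hi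

theorem force_near (h4 : FourPoint d) {x y p q r s : V}
    (xp : Mid d lo hi x p) (xq : Mid d lo hi x q) (xr : Mid d lo hi x r) (xs : Mid d lo hi x s)
    (yp : Mid d lo hi y p) (yq : Mid d lo hi y q) (yr : Mid d lo hi y r) (ys : Mid d lo hi y s)
    (pq : Mid d lo hi p q) (rs : Mid d lo hi r s)
    (pr : Out d lo hi p r) (ps : Out d lo hi p s) (qr : Out d lo hi q r) (qs : Out d lo hi q s)
    (xy : Out d lo hi x y) : d x y < lo := by
  rcases xy with h | h
  · exact h
  exfalso
  unfold Mid at *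
  have k1 := h4 p q r s
  have c1 := h4 x y p r
  have c2 := h4 x y p s
  have c3 := h4 x y q r
  have c4 := h4 x y q s
  rw [le_max_iff] at k1 c1 c2 c3 c4
  have n1 : d p r ≤ hi := by rcases c1 with c | c <;> linarith
  have n2 : d p s ≤ hi := by rcases c2 with c | c <;> linarith
  have n3 : d q r ≤ hi := by rcases c3 with c | c <;> linarith
  have n4 : d q s ≤ hi := by rcases c4 with c | c <;> linarith
  have m1 : d p r < lo := pr.resolve_right (by linarith)
  have m2 : d p s < lo := ps.resolve_right (by linarith)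
  have m3 : d q r < lo := qr.resolve_right (by linarith)
  have m4 : d q s < lo := qs.resolve_right (by linarith)
  rcases k1 with c | c <;> linarith

theorem force_far (h4 : FourPoint d) {x y x' y' : V} (xy' : Mid d lo hi x y')
    (x'y : Mid d lo hi x' y) (xx' : d x x' < lo) (y'y : d y' y < lo) (y'x' : d y' x' < lo)
    (xy : Out d lo hi x y) : hi < d x y := by
  rcases xy with h | h
  · exfalso
    unfold Mid at *
    have k := h4 x y' x' y
    rw [le_max_iff] at k
    rcases k with k | k <;> linarith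
  · exact h

end Sound

/-- Soundness: the pairs in `bS` are far and the pairs in `bE` are not. -/
theorem sound {bE bS : B → B → Prop} (h : GenPCG (fromRel (LE bE bS)) (fromRel (LS bS))) :
    ∃ f : B → B → ℝ, (∀ u v, f u v = f v u) ∧ FourPoint f ∧
      (∀ u v, u ≠ v → bE u v → f u v ≤ 0) ∧ ∀ u v, u ≠ v → bS u v → 0 < f u v := by
  obtain ⟨t, lo, hi, -, -, hE, hS⟩ := h
  have hsym : ∀ x y, t.dist x y = t.dist y x := fun x y => tdist_comm _ _ _ _
  have h4 : FourPoint t.dist := fun u v x y => four_point t.isTree t.w_pos _ _ _ _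
  have mid : ∀ x y, x ≠ y → (LE bE bS x y ∨ LE bE bS y x) → Mid t.dist lo hi x y :=
    fun x y hxy h => (hE x y ((fromRel_adj _ _ _).2 ⟨hxy, h⟩)).2
  have out : ∀ x y, x ≠ y → (LS bS x y ∨ LS bS y x) → Out t.dist lo hi x y := by
    intro x y hxy h
    have h1 := hS x y ((fromRel_adj _ _ _).2 ⟨hxy, h⟩)
    by_contra hcon
    unfold Out at hcon
    push Not at hcon
    exact h1 ⟨hxy, hcon⟩
  have near_ab : ∀ u, t.dist (.a u) (.b u) < lo := by
    intro u
    exact force_near h4 (x := .a u) (y := .b u) (p := .p 0 u) (q := .p 1 u) (r := .p 2 u)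
      (s := .p 3 u) (mid _ _ (by simp) (Or.inr rfl)) (mid _ _ (by simp) (Or.inr rfl))
      (mid _ _ (by simp) (Or.inr rfl)) (mid _ _ (by simp) (Or.inr rfl))
      (mid _ _ (by simp) (Or.inr rfl)) (mid _ _ (by simp) (Or.inr rfl))
      (mid _ _ (by simp) (Or.inr rfl)) (mid _ _ (by simp) (Or.inr rfl))
      (mid _ _ (by simp) (Or.inl ⟨rfl, Or.inl ⟨rfl, rfl⟩⟩))
      (mid _ _ (by simp) (Or.inl ⟨rfl, Or.inr ⟨rfl, rfl⟩⟩))
      (out _ _ (by simp) (Or.inl ⟨rfl, by decide, by decide⟩))
      (out _ _ (by simp) (Or.inl ⟨rfl, by decide, by decide⟩))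
      (out _ _ (by simp) (Or.inl ⟨rfl, by decide, by decide⟩))
      (out _ _ (by simp) (Or.inl ⟨rfl, by decide, by decide⟩))
      (out _ _ (by simp) (Or.inl rfl))
  have near_bb : ∀ u v, u ≠ v → bS u v → t.dist (.b u) (.b v) < lo := by
    intro u v huv hS'
    exact force_near h4 (x := .b u) (y := .b v) (p := .g 0) (q := .g 1) (r := .g 2)
      (s := .g 3) (mid _ _ (by simp) (Or.inr trivial)) (mid _ _ (by simp) (Or.inr trivial))
      (mid _ _ (by simp) (Or.inr trivial)) (mid _ _ (by simp) (Or.inr trivial))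
      (mid _ _ (by simp) (Or.inr trivial)) (mid _ _ (by simp) (Or.inr trivial))
      (mid _ _ (by simp) (Or.inr trivial)) (mid _ _ (by simp) (Or.inr trivial))
      (mid _ _ (by simp) (Or.inl (Or.inl ⟨rfl, rfl⟩)))
      (mid _ _ (by simp) (Or.inl (Or.inr ⟨rfl, rfl⟩)))
      (out _ _ (by simp) (Or.inl ⟨by decide, by decide⟩))
      (out _ _ (by simp) (Or.inl ⟨by decide, by decide⟩))
      (out _ _ (by simp) (Or.inl ⟨by decide, by decide⟩))
      (out _ _ (by simp) (Or.inl ⟨by decide, by decide⟩))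
      (out _ _ (by simpa using huv) (Or.inl hS'))
  refine ⟨fun u v => t.dist (.a u) (.a v) - hi, fun u v => ?_, ?_, ?_, ?_⟩
  · simp only
    rw [hsym]
  · intro u v x y
    have := h4 (.a u) (.a v) (.a x) (.a y)
    rw [le_max_iff] at this ⊢
    rcases this with h | h
    · left; linarith
    · right; linarith
  · intro u v huv hE'
    have := mid (.a u) (.a v) (by simpa using huv) (Or.inl hE')
    unfold Mid at this
    simp only
    linarith
  · intro u v huv hS'
    have h1 : hi < t.dist (.a u) (.a v) := by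
      refine force_far h4 (x := .a u) (y := .a v) (x' := .b u) (y' := .b v)
        (mid _ _ (by simp) (Or.inl ⟨huv, Or.inl hS'⟩)) ?_ (near_ab u) ?_ ?_
        (out _ _ (by simpa using huv) (Or.inl hS'))
      · exact mid _ _ (by simp) (Or.inr ⟨huv.symm, Or.inr hS'⟩)
      · rw [hsym]
        exact near_ab v
      · rw [hsym]
        exact near_bb u v huv hS'
    simp only
    linarith

/-- Completeness: intervals on a line. -/
theorem complete [Finite B] {bE bS : B → B → Prop} (pos : B → ℕ) (rad : B → ℝ) (L : ℕ)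
    (hL : 1 ≤ L) (hpos : ∀ u, pos u ≤ L) (hrad : ∀ u, 0 < rad u ∧ rad u ≤ L)
    (hmax : ∃ u, pos u = L)
    (hE : ∀ u v, u ≠ v → bE u v → |(pos u : ℝ) - pos v| ≤ rad u + rad v)
    (hS : ∀ u v, u ≠ v → bS u v → rad u + rad v < |(pos u : ℝ) - pos v|) :
    GenPCG (fromRel (LE bE bS)) (fromRel (LS bS)) := by
  classical
  obtain ⟨c, hc0⟩ : ∃ c : ℝ, c = 1 / ((L : ℝ) + 1) := ⟨_, rfl⟩
  have hLp : (0 : ℝ) < (L : ℝ) + 1 := by positivity
  have hc : 0 < c := by rw [hc0]; positivity
  have hcL : c * L < 1 := by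
    rw [hc0, div_mul_eq_mul_div, one_mul, div_lt_one hLp]
    linarith
  have hcr : ∀ u, 0 < c * rad u ∧ c * rad u < 1 := fun u =>
    ⟨mul_pos hc (hrad u).1, lt_of_le_of_lt (mul_le_mul_of_nonneg_left (hrad u).2 hc.le) hcL⟩
  have hcd : ∀ i j : ℕ, i ≤ L → j ≤ L → c * |(i : ℝ) - j| < 1 := by
    intro i j hi hj
    refine lt_of_le_of_lt (mul_le_mul_of_nonneg_left ?_ hc.le) hcL
    have h1 : (i : ℝ) ≤ L := by exact_mod_cast hi
    have h2 : (j : ℝ) ≤ L := by exact_mod_cast hj
    rw [abs_le]
    constructor <;> linarith [(Nat.cast_nonneg i : (0 : ℝ) ≤ i), (Nat.cast_nonneg j : (0 : ℝ) ≤ j)]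
  have hcd0 : ∀ i j : ℕ, 0 ≤ c * |(i : ℝ) - j| := fun i j => mul_nonneg hc.le (abs_nonneg _)
  let P : B → Fin (L + 1) := fun u => ⟨pos u, Nat.lt_succ_of_le (hpos u)⟩
  let sp : (B × Bool) ⊕ Bool → Fin (L + 1) := fun s => match s with
    | Sum.inl x => P x.1
    | Sum.inr _ => ⟨0, by omega⟩
  let h : (B × Bool) ⊕ Bool → ℝ := fun s => match s with
    | Sum.inl x => 1 / 2 + c * rad x.1
    | Sum.inr _ => 1
  let att : Lab B → Fin (L + 1) ⊕ ((B × Bool) ⊕ Bool) := fun x => match x with
    | .a u => Sum.inl (P u)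
    | .b u => Sum.inl (P u)
    | .p i u => Sum.inr (Sum.inl (u, decide (2 ≤ i.1)))
    | .g i => Sum.inr (Sum.inr (decide (2 ≤ i.1)))
  let l : Lab B → ℝ := fun x => match x with
    | .a u => 5 / 2 - c * rad u
    | .b _ => 1 / 2
    | .p _ _ => 2
    | .g _ => 2
  have hh : ∀ s, 0 < h s := by
    rintro (⟨u, b⟩ | b)
    · have := (hcr u).1
      simp only [h]
      linarith
    · simp [h]
  have hl : ∀ v, 0 < l v := by
    rintro (u | u | ⟨i, u⟩ | i)
    · have := (hcr u).2
      simp only [l]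
      linarith
    · simp [l]
    · simp [l]
    · simp [l]
  have hst : ∀ s, ∃ v, att v = Sum.inr s := by
    rintro (⟨u, b⟩ | b)
    · cases b
      · exact ⟨.p 0 u, rfl⟩
      · exact ⟨.p 2 u, rfl⟩
    · cases b
      · exact ⟨.g 0, rfl⟩
      · exact ⟨.g 2, rfl⟩
  have hend : ∀ i : Fin (L + 1), i.1 = 0 ∨ i.1 = L →
      (∃ v, att v = Sum.inl i) ∨ ∃ s, sp s = i := by
    rintro ⟨i, hi⟩ (h0 | h0)
    · simp only at h0
      subst h0
      exact Or.inr ⟨Sum.inr true, rfl⟩
    · simp only at h0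
      subst h0
      obtain ⟨u, hu⟩ := hmax
      refine Or.inl ⟨.a u, ?_⟩
      simp only [att, P, hu]
  have : Finite (Lab B) := by
    refine Finite.of_surjective (fun x : (B ⊕ B) ⊕ ((Fin 4 × B) ⊕ Fin 4) => match x with
      | Sum.inl (Sum.inl u) => Lab.a u
      | Sum.inl (Sum.inr u) => Lab.b u
      | Sum.inr (Sum.inl (i, u)) => Lab.p i u
      | Sum.inr (Sum.inr i) => Lab.g i) ?_
    rintro (u | u | ⟨i, u⟩ | i)
    · exact ⟨Sum.inl (Sum.inl u), rfl⟩
    · exact ⟨Sum.inl (Sum.inr u), rfl⟩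
    · exact ⟨Sum.inr (Sum.inl (i, u)), rfl⟩
    · exact ⟨Sum.inr (Sum.inr i), rfl⟩
  obtain ⟨t, ht⟩ := realize hL hc sp h hh att l hl hst hend
  have hsym : ∀ x y, t.dist x y = t.dist y x := fun x y => tdist_comm _ _ _ _
  -- the edges
  have hmid : ∀ x y, x ≠ y → LE bE bS x y → 3 ≤ t.dist x y ∧ t.dist x y ≤ 5 := by
    intro x y hxy hadj
    rw [ht x y hxy]
    rcases x with u | u | ⟨i, u⟩ | i <;> rcases y with v | v | ⟨j, v⟩ | j <;>
      simp only [LE] at hadj
    · have huv : u ≠ v := fun e => hxy (by rw [e])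
      have h1 := hE u v huv hadj
      have h2 := mul_le_mul_of_nonneg_left h1 hc.le
      have h3 := hcr u
      have h4 := hcr v
      have h5 := hcd0 (pos u) (pos v)
      simp only [l, att, hubD, P]
      constructor <;> linarith
    · have huv := hadj.1
      have h1 : rad u + rad v < |(pos u : ℝ) - pos v| := by
        rcases hadj.2 with h | h
        · exact hS u v huv h
        · have := hS v u huv.symm h
          rw [abs_sub_comm]
          linarith
      have h2 := mul_lt_mul_of_pos_left h1 hc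
      have h3 := hcr u
      have h4 := hcr v
      have h5 := hcd (pos u) (pos v) (hpos u) (hpos v)
      simp only [l, att, hubD, P]
      constructor <;> linarith
    · subst hadj
      have h3 := hcr u
      simp only [l, att, hubD, P, h, sp, sub_self, abs_zero, mul_zero]
      constructor <;> linarith
    · subst hadj
      have h3 := hcr u
      simp only [l, att, hubD, P, h, sp, sub_self, abs_zero, mul_zero]
      constructor <;> linarith
    · obtain ⟨rfl, hij⟩ := hadj
      have e : (decide (2 ≤ i.1) : Bool) = decide (2 ≤ j.1) := by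
        rcases hij with ⟨rfl, rfl⟩ | ⟨rfl, rfl⟩ <;> rfl
      simp only [l, att, hubD, e, if_true]
      norm_num
    · have h5 := hcd 0 (pos v) (by omega) (hpos v)
      have h6 := hcd0 0 (pos v)
      simp only [l, att, hubD, P, h, sp, Nat.cast_zero] at h5 h6 ⊢
      constructor <;> linarith
    · have e : (decide (2 ≤ i.1) : Bool) = decide (2 ≤ j.1) := by
        rcases hadj with ⟨rfl, rfl⟩ | ⟨rfl, rfl⟩ <;> rfl
      simp only [l, att, hubD, e, if_true]
      norm_num
  -- the forbidden pairs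
  have hout : ∀ x y, x ≠ y → LS bS x y → t.dist x y < 3 ∨ 5 < t.dist x y := by
    intro x y hxy hadj
    rw [ht x y hxy]
    rcases x with u | u | ⟨i, u⟩ | i <;> rcases y with v | v | ⟨j, v⟩ | j <;>
      simp only [LS] at hadj
    · have huv : u ≠ v := fun e => hxy (by rw [e])
      have h1 := hS u v huv hadj
      have h2 := mul_lt_mul_of_pos_left h1 hc
      right
      simp only [l, att, hubD, P]
      linarith
    · subst hadj
      have h3 := hcr u
      left
      simp only [l, att, hubD, P, sub_self, abs_zero, mul_zero]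
      linarith
    · have h5 := hcd (pos u) (pos v) (hpos u) (hpos v)
      left
      simp only [l, att, hubD, P]
      linarith
    · obtain ⟨rfl, hi, hj⟩ := hadj
      have e : ¬ ((Sum.inl (u, decide (2 ≤ i.1)) : (B × Bool) ⊕ Bool) =
          Sum.inl (u, decide (2 ≤ j.1))) := by
        rw [Sum.inl.injEq, Prod.mk.injEq]
        rintro ⟨-, h⟩
        rw [decide_eq_decide] at h
        omega
      have h3 := hcr u
      right
      simp only [l, att, hubD, e, if_false, h, sp, sub_self, abs_zero, mul_zero]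
      linarith
    · obtain ⟨hi, hj⟩ := hadj
      have e : ¬ ((Sum.inr (decide (2 ≤ i.1)) : (B × Bool) ⊕ Bool) =
          Sum.inr (decide (2 ≤ j.1))) := by
        rw [Sum.inr.injEq, decide_eq_decide]
        omega
      right
      simp only [l, att, hubD, e, if_false, h, sp, sub_self, abs_zero, mul_zero]
      norm_num
  refine ⟨t, 3, 5, by norm_num, by norm_num, ?_, ?_⟩
  · intro x y hxy
    rw [fromRel_adj] at hxy
    obtain ⟨hne, h | h⟩ := hxy
    · exact ⟨hne, hmid x y hne h⟩
    · refine ⟨hne, ?_⟩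
      rw [hsym]
      exact hmid y x hne.symm h
  · intro x y hxy hadj
    rw [fromRel_adj] at hxy
    obtain ⟨hne, h⟩ := hxy
    have h1 : t.dist x y < 3 ∨ 5 < t.dist x y := by
      rcases h with h | h
      · exact hout x y hne h
      · rw [hsym]
        exact hout y x hne.symm h
    obtain ⟨-, h2, h3⟩ := hadj
    rcases h1 with h1 | h1 <;> linarith

end Pool.Agent.TH667.PCG
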