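import Mathlib

/-!
# Path lengths in weighted trees: the four-point condition
-/

set_option autoImplicit false

namespace Pool.Agent.TH667.PCG

open SimpleGraph

variable {W : Type} {T : SimpleGraph W}

/-- The length of a walk: the sum of the weights of its edges. -/
def wlen (w : Sym2 W → ℝ) {a b : W} (p : T.Walk a b) : ℝ := (p.edges.map w).sum

theorem wlen_append (w : Sym2 W → ℝ) {a b c : W} (p : T.Walk a b) (q : T.Walk b c) :
    wlen w (p.append q) = wlen w p + wlen w q := by
  simp [wlen, Walk.edges_append]

theorem wlen_reverse (w : Sym2 W → ℝ) {a b : W} (p : T.Walk a b) :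
    wlen w p.reverse = wlen w p := by
  simp [wlen, Walk.edges_reverse]

theorem wlen_cons (w : Sym2 W → ℝ) {a b c : W} (h : T.Adj a b) (p : T.Walk b c) :
    wlen w (Walk.cons h p) = w s(a, b) + wlen w p := by
  simp [wlen]

theorem wlen_nonneg {w : Sym2 W → ℝ} (hw : ∀ e ∈ T.edgeSet, 0 < w e) {a b : W}
    (p : T.Walk a b) : 0 ≤ wlen w p := by
  unfold wlen
  apply List.sum_nonneg
  intro x hx
  rw [List.mem_map] at hx
  obtain ⟨e, he, rfl⟩ := hx
  exact (hw e (p.edges_subset_edgeSet he)).le

/-- The length of the path between two vertices of a tree. -/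
noncomputable def tdist (hT : T.IsTree) (w : Sym2 W → ℝ) (a b : W) : ℝ :=
  wlen w (hT.existsUnique_path a b).choose

theorem wlen_eq (hT : T.IsTree) (w : Sym2 W → ℝ) {a b : W} (p : T.Walk a b) (hp : p.IsPath) :
    wlen w p = tdist hT w a b := by
  unfold tdist
  rw [(hT.existsUnique_path a b).choose_spec.2 p hp]

theorem exists_path (hT : T.IsTree) (w : Sym2 W → ℝ) (a b : W) :
    ∃ p : T.Walk a b, p.IsPath ∧ wlen w p = tdist hT w a b :=
  ⟨_, (hT.existsUnique_path a b).choose_spec.1, rfl⟩

theorem tdist_self (hT : T.IsTree) (w : Sym2 W → ℝ) (a : W) : tdist hT w a a = 0 := by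
  rw [← wlen_eq hT w (Walk.nil : T.Walk a a) Walk.IsPath.nil]
  simp [wlen]

theorem tdist_comm (hT : T.IsTree) (w : Sym2 W → ℝ) (a b : W) :
    tdist hT w a b = tdist hT w b a := by
  obtain ⟨p, hp, h⟩ := exists_path hT w a b
  rw [← h, ← wlen_reverse, wlen_eq hT w _ hp.reverse]

theorem tdist_nonneg (hT : T.IsTree) {w : Sym2 W → ℝ} (hw : ∀ e ∈ T.edgeSet, 0 < w e)
    (a b : W) : 0 ≤ tdist hT w a b := wlen_nonneg hw _

theorem tdist_append (hT : T.IsTree) (w : Sym2 W → ℝ) {a b c : W} {p : T.Walk a b}
    {q : T.Walk b c} (h : (p.append q).IsPath) :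
    tdist hT w a c = tdist hT w a b + tdist hT w b c := by
  rw [← wlen_eq hT w _ h, wlen_append, wlen_eq hT w p h.of_append_left,
    wlen_eq hT w q h.of_append_right]

theorem tdist_mem (hT : T.IsTree) (w : Sym2 W → ℝ) {a b m : W} {p : T.Walk a b}
    (hp : p.IsPath) (hm : m ∈ p.support) :
    tdist hT w a b = tdist hT w a m + tdist hT w m b := by
  obtain ⟨q, r, -, -, rfl⟩ := hp.mem_support_iff_exists_append.1 hm
  exact tdist_append hT w hp

/-- Two vertices on a path are joined by a path inside it. -/
theorem exists_subpath {a b : W} {p : T.Walk a b} (hp : p.IsPath) {x y : W}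
    (hx : x ∈ p.support) (hy : y ∈ p.support) :
    ∃ r : T.Walk x y, r.IsPath ∧ ∀ z ∈ r.support, z ∈ p.support := by
  classical
  rw [← p.take_spec hx, Walk.mem_support_append_iff] at hy
  rcases hy with hy | hy
  · refine ⟨((p.takeUntil x hx).dropUntil y hy).reverse, ?_, ?_⟩
    · exact ((hp.takeUntil hx).dropUntil hy).reverse
    · intro z hz
      rw [Walk.support_reverse, List.mem_reverse] at hz
      exact p.support_takeUntil_subset_support hx ((p.takeUntil x hx).support_dropUntil_subset_support hy hz)
  · refine ⟨(p.dropUntil x hx).takeUntil y hy, (hp.dropUntil hx).takeUntil hy, ?_⟩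
    intro z hz
    exact p.support_dropUntil_subset_support hx ((p.dropUntil x hx).support_takeUntil_subset_support hy hz)

/-- The projection of a vertex to a path. -/
theorem exists_proj (hT : T.IsTree) (w : Sym2 W → ℝ) {a b : W} {p : T.Walk a b}
    (hp : p.IsPath) (m : W) : ∃ m' ∈ p.support, ∀ z ∈ p.support,
      tdist hT w m z = tdist hT w m m' + tdist hT w m' z := by
  classical
  obtain ⟨m', hm', hmin⟩ := Finset.exists_min_image p.support.toFinset
    (fun z => (hT.existsUnique_path m z).choose.length) ⟨a, by simp⟩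
  rw [List.mem_toFinset] at hm'
  refine ⟨m', hm', fun z hz => ?_⟩
  set q := (hT.existsUnique_path m m').choose with hq
  have hqp : q.IsPath := (hT.existsUnique_path m m').choose_spec.1
  obtain ⟨r, hr, hrs⟩ := exists_subpath hp hm' hz
  have hqr : ∀ x ∈ q.support, x ∈ p.support → x = m' := by
    intro x hx hxp
    by_contra hne
    have h1 := hmin x (List.mem_toFinset.2 hxp)
    simp only at h1
    rw [← (hT.existsUnique_path m x).choose_spec.2 _ (hqp.takeUntil hx)] at h1
    have h2 : (q.takeUntil x hx).length + (q.dropUntil x hx).length = q.length := by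
      rw [← Walk.length_append, q.take_spec hx]
    have h3 : (q.dropUntil x hx).length ≠ 0 := by
      intro h
      exact hne (Walk.eq_of_length_eq_zero h)
    omega
  refine tdist_append hT w (p := q) (q := r) ?_
  rw [Walk.isPath_def, Walk.support_append, List.nodup_append]
  refine ⟨hqp.support_nodup, hr.support_nodup.tail, ?_⟩
  intro x hx y hy hxy
  subst hxy
  have h1 := hqr x hx (hrs x (List.mem_of_mem_tail hy))
  subst h1
  have h2 := hr.support_nodup
  rw [← Walk.cons_tail_support, List.nodup_cons] at h2
  exact h2.1 hy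

theorem tdist_triangle (hT : T.IsTree) {w : Sym2 W → ℝ} (hw : ∀ e ∈ T.edgeSet, 0 < w e)
    (a m b : W) : tdist hT w a b ≤ tdist hT w a m + tdist hT w m b := by
  obtain ⟨p, hp, -⟩ := exists_path hT w a b
  obtain ⟨m', hm', h⟩ := exists_proj hT w hp m
  have h1 := h a p.start_mem_support
  have h2 := h b p.end_mem_support
  have h3 := tdist_mem hT w hp hm'
  have h4 := tdist_nonneg hT hw m m'
  have h5 := tdist_comm hT w a m
  have h6 := tdist_comm hT w a m'
  linarith

/-- The four-point condition. -/
theorem four_point (hT : T.IsTree) {w : Sym2 W → ℝ} (hw : ∀ e ∈ T.edgeSet, 0 < w e)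
    (u v x y : W) : tdist hT w u v + tdist hT w x y ≤
      max (tdist hT w u x + tdist hT w v y) (tdist hT w u y + tdist hT w v x) := by
  classical
  obtain ⟨p, hp, -⟩ := exists_path hT w u v
  obtain ⟨x', hx', hx⟩ := exists_proj hT w hp x
  obtain ⟨y', hy', hy⟩ := exists_proj hT w hp y
  have a1 := hx u p.start_mem_support
  have a2 := hx v p.end_mem_support
  have a3 := hy u p.start_mem_support
  have a4 := hy v p.end_mem_support
  have a5 := hy x' hx'
  have a6 := tdist_triangle hT hw x x' y
  have a7 := tdist_mem hT w hp hx'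
  have a8 := tdist_mem hT w hp hy'
  have c1 := tdist_comm hT w u x
  have c2 := tdist_comm hT w v x
  have c3 := tdist_comm hT w u y
  have c4 := tdist_comm hT w v y
  have c5 := tdist_comm hT w x' y
  have c6 := tdist_comm hT w x' u
  have c7 := tdist_comm hT w y' u
  have c8 := tdist_comm hT w x' y'
  rw [← p.take_spec hy', Walk.mem_support_append_iff] at hx'
  rcases hx' with h | h
  · have b1 := tdist_mem hT w (hp.takeUntil hy') h
    exact le_max_of_le_right (by linarith)
  · have b1 := tdist_mem hT w (hp.dropUntil hy') h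
    exact le_max_of_le_left (by linarith)

end Pool.Agent.TH667.PCG
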