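import Pool.Agent.NPC.Defs
import Pool.Agent.H622R2.MatGraph
import Pool.Agent.TH667.PCG.Dist

/-!
# Generalized recognition of pairwise compatibility graphs: definitions
-/

set_option autoImplicit false

namespace Pool.Agent.TH667.PCG

/-- An edge-weighted tree with positive weights, whose leaves are identified with the elements
of `V`.  The leaves are the vertices with at most one neighbour. -/
structure LeafTree (V : Type) where
  /-- the vertices of the tree -/
  W : Type
  fin : Finite W
  /-- the tree -/
  T : SimpleGraph W
  isTree : T.IsTree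
  /-- the weights of the edges -/
  w : Sym2 W → ℝ
  w_pos : ∀ e ∈ T.edgeSet, 0 < w e
  /-- the identification of the elements of `V` with the leaves -/
  leaf : V → W
  leaf_inj : Function.Injective leaf
  leaf_iff : ∀ x, x ∈ Set.range leaf ↔ (T.neighborSet x).ncard ≤ 1

/-- The distance `d_T(u, v)` of two leaves: the sum of the weights on the path between them. -/
noncomputable def LeafTree.dist {V : Type} (t : LeafTree V) (u v : V) : ℝ :=
  tdist t.isTree t.w (t.leaf u) (t.leaf v)

/-- The graph `PCG(T, dmin, dmax)`. -/
def LeafTree.pcg {V : Type} (t : LeafTree V) (dmin dmax : ℝ) : SimpleGraph V where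
  Adj u v := u ≠ v ∧ dmin ≤ t.dist u v ∧ t.dist u v ≤ dmax
  symm := ⟨fun u v h => by
    have e : t.dist v u = t.dist u v := tdist_comm _ _ _ _
    rw [e]
    exact ⟨h.1.symm, h.2⟩⟩
  loopless := ⟨fun _ h => h.1 rfl⟩

/-- There is a pairwise compatibility graph which contains all edges of `G` and none of the pairs
in `S`. -/
def GenPCG {V : Type} (G S : SimpleGraph V) : Prop :=
  ∃ (t : LeafTree V) (dmin dmax : ℝ), 0 ≤ dmin ∧ dmin ≤ dmax ∧
    (∀ u v, G.Adj u v → (t.pcg dmin dmax).Adj u v) ∧
    ∀ u v, S.Adj u v → ¬ (t.pcg dmin dmax).Adj u v

/-- The graph with vertices `0, ..., n - 1` given by a Boolean matrix: distinct vertices `i`, `j`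
are adjacent when the entry `(i, j)` or the entry `(j, i)` is `true`. -/
def graphOf (n : ℕ) (M : List (List Bool)) : SimpleGraph (Fin n) where
  Adj i j := i ≠ j ∧ (H622R2.entry M i j = true ∨ H622R2.entry M j i = true)
  symm := ⟨fun _ _ h => ⟨h.1.symm, h.2.symm⟩⟩
  loopless := ⟨fun _ h => h.1 rfl⟩

/-- **Generalized PCG recognition.**  The input is the adjacency matrix of a graph `G` with `n`
vertices and an `n`-rowed matrix describing a set `S` of pairs of vertices, none of them an edge of
`G`.  The question is whether there is a pairwise compatibility graph on the vertices of `G` which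
contains every edge of `G` and no pair of `S`. -/
def GenPCGRecognition (I : List (List Bool) × List (List Bool)) : Prop :=
  I.2.length = I.1.length ∧
    (∀ u v, (graphOf I.1.length I.2).Adj u v → ¬ (graphOf I.1.length I.1).Adj u v) ∧
    GenPCG (graphOf I.1.length I.1) (graphOf I.1.length I.2)

end Pool.Agent.TH667.PCG
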