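import Pool.Agent.TH667.PCG.Order

/-!
# The instance of a formula
-/

set_option autoImplicit false

namespace Pool.Agent.TH667.PCG

open Pool.Agent.NPC Pool.Agent.H495R3.Cy SimpleGraph

/-- The number of the right end. -/
def rt (φ : List Cl) : ℕ := 3 + 8 * φ.length

/-- The betweenness constraints: those of `Trip`, and every element is between `0` and `rt φ`. -/
def trips (φ : List Cl) : List (ℕ × ℕ × ℕ) :=
  (List.range (3 * φ.length)).map (fun v => (3 + 2 * v, 1, 3 + 2 * v + 1)) ++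
    (φ.zipIdx.flatMap (fun p => [(lc p.1.1, 3 + 6 * φ.length + 2 * p.2, lc p.1.2.1),
      (lc p.1.2.2, 3 + 6 * φ.length + 2 * p.2 + 1, 2),
      (3 + 6 * φ.length + 2 * p.2, 1, 3 + 6 * φ.length + 2 * p.2 + 1)]) ++
    (List.range (2 + 8 * φ.length)).map (fun e => (0, e + 1, 3 + 8 * φ.length)))

/-- The constraint number `k`. -/
def tr (φ : List Cl) (k : ℕ) : ℕ × ℕ × ℕ := ((trips φ)[k]?).getD (0, 0, 0)

theorem mem_trips {φ : List Cl} {a b c : ℕ} : (a, b, c) ∈ trips φ ↔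
    Trip φ a b c ∨ (a = 0 ∧ 1 ≤ b ∧ b < rt φ ∧ c = rt φ) := by
  unfold trips Trip rt
  simp only [List.mem_append, List.mem_map, List.mem_range, List.mem_flatMap, Prod.mk.injEq,
    List.mem_cons, List.not_mem_nil, or_false]
  constructor
  · rintro (⟨v, hv, rfl, rfl, rfl⟩ | ⟨⟨d, k⟩, hd, h⟩ | ⟨e, he, rfl, rfl, rfl⟩)
    · exact Or.inl (Or.inl ⟨v, hv, rfl, rfl, rfl⟩)
    · rw [List.mem_zipIdx_iff_getElem?] at hd
      simp only at hd h
      obtain ⟨hk, hd⟩ := List.getElem?_eq_some_iff.1 hd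
      subst hd
      left; right
      refine ⟨k, hk, ?_⟩
      rcases h with ⟨rfl, rfl, rfl⟩ | ⟨rfl, rfl, rfl⟩ | ⟨rfl, rfl, rfl⟩
      · exact Or.inl ⟨rfl, rfl, rfl⟩
      · exact Or.inr (Or.inl ⟨rfl, rfl, rfl⟩)
      · exact Or.inr (Or.inr ⟨rfl, rfl, rfl⟩)
    · exact Or.inr ⟨rfl, by omega, by omega, rfl⟩
  · rintro ((⟨v, hv, rfl, rfl, rfl⟩ | ⟨k, hk, h⟩) | ⟨rfl, h1, h2, rfl⟩)
    · exact Or.inl ⟨v, hv, rfl, rfl, rfl⟩
    · right; left
      refine ⟨(φ[k], k), ?_, ?_⟩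
      · rw [List.mem_zipIdx_iff_getElem?]
        simp
      · simp only
        rcases h with ⟨rfl, rfl, rfl⟩ | ⟨rfl, rfl, rfl⟩ | ⟨rfl, rfl, rfl⟩
        · exact Or.inl ⟨rfl, rfl, rfl⟩
        · exact Or.inr (Or.inl ⟨rfl, rfl, rfl⟩)
        · exact Or.inr (Or.inr ⟨rfl, rfl, rfl⟩)
    · exact Or.inr (Or.inr ⟨b - 1, by omega, rfl, by omega, rfl⟩)

/-- The labels: elements `(0, e)`, and `(1, k)`, `(2, k)` for every constraint `k`. -/
def base (φ : List Cl) : List (ℕ × ℕ) :=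
  (List.range (rt φ + 1)).map (fun e => (0, e)) ++
    ((List.range (trips φ).length).map (fun k => (1, k)) ++
      (List.range (trips φ).length).map (fun k => (2, k)))

theorem mem_base {φ : List Cl} (u : ℕ × ℕ) : u ∈ base φ ↔ (u.1 = 0 ∧ u.2 ≤ rt φ) ∨
    (u.1 = 1 ∧ u.2 < (trips φ).length) ∨ (u.1 = 2 ∧ u.2 < (trips φ).length) := by
  obtain ⟨i, k⟩ := u
  simp only [base, List.mem_append, List.mem_map, List.mem_range, Prod.mk.injEq]
  constructor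
  · rintro (⟨e, he, rfl, rfl⟩ | ⟨e, he, rfl, rfl⟩ | ⟨e, he, rfl, rfl⟩)
    · exact Or.inl ⟨rfl, by omega⟩
    · exact Or.inr (Or.inl ⟨rfl, he⟩)
    · exact Or.inr (Or.inr ⟨rfl, he⟩)
  · rintro (⟨rfl, h⟩ | ⟨rfl, h⟩ | ⟨rfl, h⟩)
    · exact Or.inl ⟨k, by omega, rfl, rfl⟩
    · exact Or.inr (Or.inl ⟨k, h, rfl, rfl⟩)
    · exact Or.inr (Or.inr ⟨k, h, rfl, rfl⟩)

/-- The edges: `(1, k)` is adjacent to the first two elements of the constraint `k`, and `(2, k)`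
to the last two. -/
def bEb (φ : List Cl) (u v : ℕ × ℕ) : Bool :=
  (decide (u.1 = 1) && (decide (v.1 = 0) && (decide (v.2 = (tr φ u.2).1) ||
    decide (v.2 = (tr φ u.2).2.1)))) ||
  (decide (u.1 = 2) && (decide (v.1 = 0) && (decide (v.2 = (tr φ u.2).2.1) ||
    decide (v.2 = (tr φ u.2).2.2))))

/-- The forbidden pairs: two elements, `(1, k)` and the last element of the constraint `k`,
`(2, k)` and the first element, `(1, k)` and `(2, k)`. -/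
def bSb (φ : List Cl) (u v : ℕ × ℕ) : Bool :=
  (decide (u.1 = 0) && decide (v.1 = 0)) ||
  ((decide (u.1 = 1) && (decide (v.1 = 0) && decide (v.2 = (tr φ u.2).2.2))) ||
  ((decide (u.1 = 2) && (decide (v.1 = 0) && decide (v.2 = (tr φ u.2).1))) ||
  (decide (u.1 = 1) && (decide (v.1 = 2) && decide (u.2 = v.2)))))

theorem bEb_iff {φ : List Cl} (u v : ℕ × ℕ) : bEb φ u v = true ↔
    (u.1 = 1 ∧ v.1 = 0 ∧ (v.2 = (tr φ u.2).1 ∨ v.2 = (tr φ u.2).2.1)) ∨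
    (u.1 = 2 ∧ v.1 = 0 ∧ (v.2 = (tr φ u.2).2.1 ∨ v.2 = (tr φ u.2).2.2)) := by
  simp [bEb]

theorem bSb_iff {φ : List Cl} (u v : ℕ × ℕ) : bSb φ u v = true ↔
    (u.1 = 0 ∧ v.1 = 0) ∨ (u.1 = 1 ∧ v.1 = 0 ∧ v.2 = (tr φ u.2).2.2) ∨
    (u.1 = 2 ∧ v.1 = 0 ∧ v.2 = (tr φ u.2).1) ∨ (u.1 = 1 ∧ v.1 = 2 ∧ u.2 = v.2) := by
  simp [bSb]

/-- The type of labels. -/
abbrev Bs (φ : List Cl) : Type := {u : ℕ × ℕ // u ∈ base φ}

/-- The edges, as a relation. -/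
def bE (φ : List Cl) (u v : Bs φ) : Prop := bEb φ u.1 v.1 = true

/-- The forbidden pairs, as a relation. -/
def bS (φ : List Cl) (u v : Bs φ) : Prop := bSb φ u.1 v.1 = true

variable {φ : List Cl}

/-- The properties of a constraint. -/
theorem tr_spec (hd : Distinct3 φ) (hb : Bounded3 φ) {k : ℕ} (hk : k < (trips φ).length) :
    ∃ a b c, tr φ k = (a, b, c) ∧ a ≠ b ∧ b ≠ c ∧ a ≠ c ∧ a ≤ rt φ ∧ b ≤ rt φ ∧ c ≤ rt φ ∧
      (Trip φ a b c ∨ (a = 0 ∧ 1 ≤ b ∧ b < rt φ ∧ c = rt φ)) := by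
  have h1 : tr φ k = (trips φ)[k] := by
    unfold tr
    rw [List.getElem?_eq_getElem hk]
    rfl
  obtain ⟨a, b, c, h2⟩ : ∃ a b c, (trips φ)[k] = (a, b, c) := ⟨_, _, _, rfl⟩
  have h3 : (a, b, c) ∈ trips φ := by
    rw [← h2]
    exact List.getElem_mem hk
  have h4 := mem_trips.1 h3
  refine ⟨a, b, c, by rw [h1, h2], ?_⟩
  rcases h4 with h4 | h4
  · obtain ⟨k1, k2, k3, k4, k5, k6, k7, k8, k9⟩ := trip_ok hd hb h4
    unfold rt
    exact ⟨k1, k2, k3, by omega, by omega, by omega, Or.inl h4⟩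
  · obtain ⟨rfl, k1, k2, rfl⟩ := h4
    refine ⟨by omega, by omega, by unfold rt; omega, by omega, by omega, le_refl _,
      Or.inr ⟨rfl, k1, k2, rfl⟩⟩

/-- The element number `e`. -/
def el' (φ : List Cl) (e : ℕ) (he : e ≤ rt φ) : Bs φ := ⟨(0, e), (mem_base _).2 (Or.inl ⟨rfl, he⟩)⟩

/-- Soundness. -/
theorem inst_sound (hd : Distinct3 φ) (hb : Bounded3 φ)
    (h : GenPCG (fromRel (LE (bE φ) (bS φ))) (fromRel (LS (bS φ)))) : SAT3 φ := by
  classical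
  obtain ⟨f, hs, h4, hE, hS⟩ := sound h
  -- the consequence of a constraint
  have hel : ∀ a b (ha : a ≤ rt φ) (hb : b ≤ rt φ), a ≠ b → 0 < f (el' φ a ha) (el' φ b hb) := by
    intro a b ha hb hab
    refine hS _ _ ?_ ((bSb_iff _ _).2 (Or.inl ⟨rfl, rfl⟩))
    intro e
    apply hab
    have := congrArg (fun x : Bs φ => x.1.2) e
    exact this
  have hc : ∀ a b c (ha : a ≤ rt φ) (hb' : b ≤ rt φ) (hc : c ≤ rt φ), (a, b, c) ∈ trips φ →
      f (el' φ a ha) (el' φ b hb') + f (el' φ b hb') (el' φ c hc) < f (el' φ a ha) (el' φ c hc) := by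
    intro a b c ha hb' hc hm
    obtain ⟨k, hk, hkm⟩ := List.getElem_of_mem hm
    have h1 : tr φ k = (a, b, c) := by
      unfold tr
      rw [List.getElem?_eq_getElem hk]
      exact hkm
    obtain ⟨a', b', c', e, n1, n2, n3, -⟩ := tr_spec hd hb hk
    rw [h1] at e
    simp only [Prod.mk.injEq] at e
    obtain ⟨rfl, rfl, rfl⟩ := e
    have mx : ((1, k) : ℕ × ℕ) ∈ base φ := (mem_base _).2 (Or.inr (Or.inl ⟨rfl, hk⟩))
    have my : ((2, k) : ℕ × ℕ) ∈ base φ := (mem_base _).2 (Or.inr (Or.inr ⟨rfl, hk⟩))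
    have nx : ∀ e (he : e ≤ rt φ), (⟨(1, k), mx⟩ : Bs φ) ≠ el' φ e he := by
      intro e he h
      have := congrArg (fun x : Bs φ => x.1.1) h
      exact absurd this (by simp [el'])
    have ny : ∀ e (he : e ≤ rt φ), (⟨(2, k), my⟩ : Bs φ) ≠ el' φ e he := by
      intro e he h
      have := congrArg (fun x : Bs φ => x.1.1) h
      exact absurd this (by simp [el'])
    have nxy : (⟨(1, k), mx⟩ : Bs φ) ≠ ⟨(2, k), my⟩ := by
      intro h
      have := congrArg (fun x : Bs φ => x.1.1) h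
      exact absurd this (by simp)
    refine p5 hs h4 (x := ⟨(1, k), mx⟩) (y := ⟨(2, k), my⟩) ?_ ?_ ?_ ?_ (hel _ _ _ _ n1)
      (hel _ _ _ _ n2) ?_ ?_ ?_
    · exact hE _ _ (nx _ _) ((bEb_iff _ _).2 (Or.inl ⟨rfl, rfl, Or.inl (by rw [h1]; rfl)⟩))
    · exact hE _ _ (nx _ _) ((bEb_iff _ _).2 (Or.inl ⟨rfl, rfl, Or.inr (by rw [h1]; rfl)⟩))
    · exact hE _ _ (ny _ _) ((bEb_iff _ _).2 (Or.inr ⟨rfl, rfl, Or.inl (by rw [h1]; rfl)⟩))
    · exact hE _ _ (ny _ _) ((bEb_iff _ _).2 (Or.inr ⟨rfl, rfl, Or.inr (by rw [h1]; rfl)⟩))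
    · exact hS _ _ (ny _ _) ((bSb_iff _ _).2 (Or.inr (Or.inr (Or.inl ⟨rfl, rfl, by rw [h1]; rfl⟩))))
    · exact hS _ _ (nx _ _) ((bSb_iff _ _).2 (Or.inr (Or.inl ⟨rfl, rfl, by rw [h1]; rfl⟩)))
    · exact hS _ _ nxy ((bSb_iff _ _).2 (Or.inr (Or.inr (Or.inr ⟨rfl, rfl, rfl⟩))))
  have h0 : 0 ≤ rt φ := by omega
  let l : Bs φ := el' φ 0 h0
  let r : Bs φ := el' φ (rt φ) le_rfl
  have hlr : ∀ e (he : e ≤ rt φ), 1 ≤ e → e < rt φ →
      f l (el' φ e he) + f (el' φ e he) r < f l r := by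
    intro e he h1 h2
    exact hc 0 e (rt φ) h0 he le_rfl (mem_trips.2 (Or.inr ⟨rfl, h1, h2, rfl⟩))
  refine sat_of_keys hd hb (fun e => if he : e ≤ rt φ then key f l r (el' φ e he) else 0) ?_ ?_
  · intro x y x0 y0 hx hy hxy
    have hx' : x < rt φ := hx
    have hy' : y < rt φ := hy
    simp only [hx'.le, hy'.le, dif_pos]
    exact key_ne hs h4 (hlr x hx'.le (by omega) hx') (hlr y hy'.le (by omega) hy')
      (hel _ _ _ _ hxy)
  · intro a b c ht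
    obtain ⟨k1, k2, k3, k4, k5, k6, k7, k8, k9⟩ := trip_ok hd hb ht
    have ha : a < rt φ := k7
    have hb' : b < rt φ := k8
    have hc' : c < rt φ := k9
    simp only [ha.le, hb'.le, hc'.le, dif_pos]
    exact between_of hs h4 (hlr a ha.le (by omega) ha) (hlr b hb'.le (by omega) hb')
      (hlr c hc'.le (by omega) hc') (hel _ _ _ _ k1) (hel _ _ _ _ k2) (hel _ _ _ _ k3)
      (hc _ _ _ _ _ _ (mem_trips.2 (Or.inl ht)))

end Pool.Agent.TH667.PCG
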