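import Pool.Agent.TH667.PCG.Inst

/-!
# Completeness for the instance of a formula
-/

set_option autoImplicit false

namespace Pool.Agent.TH667.PCG

open Pool.Agent.NPC Pool.Agent.H495R3.Cy SimpleGraph

variable {φ : List Cl}

/-- Positions of the elements as natural numbers. -/
theorem exists_places (hd : Distinct3 φ) (hb : Bounded3 φ) (h : SAT3 φ) :
    ∃ (g : ℕ → ℕ) (K : ℕ), g 0 = 0 ∧ g (rt φ) = K ∧ (∀ x < rt φ, g x < K) ∧
      (∀ x, 1 ≤ x → x ≤ rt φ → 0 < g x) ∧
      (∀ x y, x ≤ rt φ → y ≤ rt φ → x ≠ y → g x ≠ g y) ∧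
      ∀ a b c, Trip φ a b c → (g a < g b ∧ g b < g c) ∨ (g c < g b ∧ g b < g a) := by
  classical
  obtain ⟨τ, hτ⟩ := h
  let G : ℕ → ℕ := fun x => (gS φ τ x - gS φ τ 0).toNat
  have hG0 : G 0 = 0 := by simp [G]
  have hpos : ∀ x, 1 ≤ x → x < rt φ → gS φ τ 0 < gS φ τ x := fun x h1 h2 =>
    gS_zero_lt hd hb h1 h2
  have hlt : ∀ x y, x < rt φ → y < rt φ → gS φ τ x < gS φ τ y → G x < G y := by
    intro x y hx hy hxy
    simp only [G]
    by_cases x0 : x = 0
    · subst x0
      omega
    · have := hpos x (by omega) hx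
      omega
  have hinj : ∀ x y, x < rt φ → y < rt φ → x ≠ y → G x ≠ G y := by
    intro x y hx hy hxy
    have h1 : gS φ τ x ≠ gS φ τ y := fun e =>
      hxy (gS_inj hd hb ((mem_els x).2 hx) ((mem_els y).2 hy) e)
    rcases lt_or_gt_of_ne h1 with h2 | h2
    · exact (hlt x y hx hy h2).ne
    · exact (hlt y x hy hx h2).ne'
  have hK : ∃ K, ∀ x < rt φ, G x < K := by
    refine ⟨(Finset.range (rt φ)).sup G + 1, fun x hx => ?_⟩
    have := Finset.le_sup (f := G) (Finset.mem_range.2 hx)
    omega
  obtain ⟨K, hK⟩ := hK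
  have hr0 : 0 < rt φ := by unfold rt; omega
  refine ⟨fun x => if x < rt φ then G x else K, K, ?_, ?_, ?_, ?_, ?_, ?_⟩
  · simp only [if_pos hr0, hG0]
  · simp
  · intro x hx
    simp only [if_pos hx]
    exact hK x hx
  · intro x h1 h2
    by_cases hx : x < rt φ
    · simp only [if_pos hx]
      have := hlt 0 x hr0 hx (hpos x h1 hx)
      omega
    · simp only [if_neg hx]
      have := hK 0 hr0
      omega
  · intro x y hx hy hxy
    by_cases hx' : x < rt φ <;> by_cases hy' : y < rt φ
    · simp only [if_pos hx', if_pos hy']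
      exact hinj x y hx' hy' hxy
    · simp only [if_pos hx', if_neg hy']
      exact (hK x hx').ne
    · simp only [if_neg hx', if_pos hy']
      exact (hK y hy').ne'
    · omega
  · intro a b c ht
    obtain ⟨k1, k2, k3, k4, k5, k6, k7, k8, k9⟩ := trip_ok hd hb ht
    have ha : a < rt φ := k7
    have hb' : b < rt φ := k8
    have hc' : c < rt φ := k9
    simp only [if_pos ha, if_pos hb', if_pos hc']
    rcases gS_between hd hb hτ ht with h | h
    · exact Or.inl ⟨hlt a b ha hb' h.1, hlt b c hb' hc' h.2⟩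
    · exact Or.inr ⟨hlt c b hc' hb' h.1, hlt b a hb' ha h.2⟩

/-- The position of a label. -/
def plc (φ : List Cl) (g : ℕ → ℕ) (u : ℕ × ℕ) : ℕ :=
  if u.1 = 0 then 8 * g u.2 else
    if u.1 = 1 then (if g (tr φ u.2).1 < g (tr φ u.2).2.1 then
      4 * g (tr φ u.2).1 + 4 * g (tr φ u.2).2.1 - 1 else
      4 * g (tr φ u.2).1 + 4 * g (tr φ u.2).2.1 + 1)
    else (if g (tr φ u.2).2.1 < g (tr φ u.2).2.2 then
      4 * g (tr φ u.2).2.1 + 4 * g (tr φ u.2).2.2 + 1 else
      4 * g (tr φ u.2).2.1 + 4 * g (tr φ u.2).2.2 - 1)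

/-- The radius of a label. -/
def rdi (φ : List Cl) (g : ℕ → ℕ) (u : ℕ × ℕ) : ℤ :=
  if u.1 = 0 then 2 else
    if u.1 = 1 then 4 * (((g (tr φ u.2).1 : ℤ) - g (tr φ u.2).2.1).natAbs : ℤ) - 1
    else 4 * (((g (tr φ u.2).2.1 : ℤ) - g (tr φ u.2).2.2).natAbs : ℤ) - 1

theorem inst_complete (hd : Distinct3 φ) (hb : Bounded3 φ) (h : SAT3 φ) :
    GenPCG (fromRel (LE (bE φ) (bS φ))) (fromRel (LS (bS φ))) := by
  classical
  obtain ⟨g, K, g0, gK, glt, gpos, ginj, gbt⟩ := exists_places hd hb h
  have hr0 : 0 < rt φ := by unfold rt; omega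
  have hK1 : 1 ≤ K := by
    have := glt 0 hr0
    omega
  have gle : ∀ x ≤ rt φ, g x ≤ K := by
    intro x hx
    rcases hx.lt_or_eq with h | h
    · exact (glt x h).le
    · rw [h, gK]
  -- the constraints
  have hcon : ∀ k < (trips φ).length, ∃ a b c, tr φ k = (a, b, c) ∧ a ≤ rt φ ∧ b ≤ rt φ ∧
      c ≤ rt φ ∧ ((g a < g b ∧ g b < g c) ∨ (g c < g b ∧ g b < g a)) := by
    intro k hk
    obtain ⟨a, b, c, e, -, -, -, ha, hb', hc, h'⟩ := tr_spec hd hb hk
    refine ⟨a, b, c, e, ha, hb', hc, ?_⟩
    rcases h' with h' | ⟨rfl, h1, h2, rfl⟩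
    · exact gbt a b c h'
    · left
      rw [g0, gK]
      exact ⟨gpos b h1 h2.le, glt b h2⟩
  have hposle : ∀ u ∈ base φ, plc φ g u ≤ 8 * K := by
    rintro ⟨i, k⟩ hu
    rw [mem_base] at hu
    unfold plc
    rcases hu with ⟨hi, hk⟩ | ⟨hi, hk⟩ | ⟨hi, hk⟩ <;> simp only at hi hk <;> subst hi
    · have := gle k hk
      simp only [if_true]
      omega
    · obtain ⟨a, b, c, e, ha, hb', hc, h'⟩ := hcon k hk
      have := gle a ha
      have := gle b hb'
      have := gle c hc
      simp only [e, one_ne_zero, if_false, if_true]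
      split_ifs <;> omega
    · obtain ⟨a, b, c, e, ha, hb', hc, h'⟩ := hcon k hk
      have := gle a ha
      have := gle b hb'
      have := gle c hc
      simp only [e, OfNat.ofNat_ne_zero, OfNat.ofNat_ne_one, if_false]
      split_ifs <;> omega
  have hradle : ∀ u ∈ base φ, 0 < rdi φ g u ∧ rdi φ g u ≤ 8 * K := by
    rintro ⟨i, k⟩ hu
    rw [mem_base] at hu
    unfold rdi
    rcases hu with ⟨hi, hk⟩ | ⟨hi, hk⟩ | ⟨hi, hk⟩ <;> simp only at hi hk <;> subst hi
    · simp only [if_true]
      omega
    · obtain ⟨a, b, c, e, ha, hb', hc, h'⟩ := hcon k hk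
      have := gle a ha
      have := gle b hb'
      have := gle c hc
      simp only [e, one_ne_zero, if_false, if_true]
      omega
    · obtain ⟨a, b, c, e, ha, hb', hc, h'⟩ := hcon k hk
      have := gle a ha
      have := gle b hb'
      have := gle c hc
      simp only [e, OfNat.ofNat_ne_zero, OfNat.ofNat_ne_one, if_false]
      omega
  have key1 : ∀ u ∈ base φ, ∀ v ∈ base φ, u ≠ v → bEb φ u v = true →
      (((plc φ g u : ℤ) - plc φ g v).natAbs : ℤ) ≤ rdi φ g u + rdi φ g v := by
    rintro ⟨i, k⟩ hu ⟨j, m⟩ hv - hE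
    rw [mem_base] at hu hv
    rw [bEb_iff] at hE
    unfold plc rdi
    rcases hE with ⟨hi, hj, hm⟩ | ⟨hi, hj, hm⟩ <;> simp only at hi hj hm <;> subst hi <;>
      subst hj
    · have hk : k < (trips φ).length := by
        rcases hu with hu | hu | hu
        · exact absurd hu.1 (by simp)
        · exact hu.2
        · exact absurd hu.1 (by simp)
      obtain ⟨a, b, c, e, ha, hb', hc, h'⟩ := hcon k hk
      rw [e] at hm
      simp only at hm
      simp only [e, one_ne_zero, if_false, if_true]
      rcases hm with rfl | rfl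
      · split_ifs <;> omega
      · split_ifs <;> omega
    · have hk : k < (trips φ).length := by
        rcases hu with hu | hu | hu
        · exact absurd hu.1 (by simp)
        · exact absurd hu.1 (by simp)
        · exact hu.2
      obtain ⟨a, b, c, e, ha, hb', hc, h'⟩ := hcon k hk
      rw [e] at hm
      simp only at hm
      simp only [e, OfNat.ofNat_ne_zero, OfNat.ofNat_ne_one, if_false, if_true]
      rcases hm with rfl | rfl
      · split_ifs <;> omega
      · split_ifs <;> omega
  have key2 : ∀ u ∈ base φ, ∀ v ∈ base φ, u ≠ v → bSb φ u v = true →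
      rdi φ g u + rdi φ g v < (((plc φ g u : ℤ) - plc φ g v).natAbs : ℤ) := by
    rintro ⟨i, k⟩ hu ⟨j, m⟩ hv huv hS
    rw [mem_base] at hu hv
    rw [bSb_iff] at hS
    unfold plc rdi
    rcases hS with ⟨hi, hj⟩ | ⟨hi, hj, hm⟩ | ⟨hi, hj, hm⟩ | ⟨hi, hj, hm⟩ <;>
      simp only at hi hj <;> subst hi <;> subst hj
    · have hk : k ≤ rt φ := by
        rcases hu with hu | hu | hu
        · exact hu.2
        · exact absurd hu.1 (by simp)
        · exact absurd hu.1 (by simp)
      have hm : m ≤ rt φ := by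
        rcases hv with hv | hv | hv
        · exact hv.2
        · exact absurd hv.1 (by simp)
        · exact absurd hv.1 (by simp)
      have hkm : k ≠ m := fun e => huv (by rw [e])
      have := ginj k m hk hm hkm
      simp only [if_true]
      omega
    · have hk : k < (trips φ).length := by
        rcases hu with hu | hu | hu
        · exact absurd hu.1 (by simp)
        · exact hu.2
        · exact absurd hu.1 (by simp)
      obtain ⟨a, b, c, e, ha, hb', hc, h'⟩ := hcon k hk
      simp only at hm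
      rw [e] at hm
      simp only at hm
      subst hm
      simp only [e, one_ne_zero, if_false, if_true]
      split_ifs <;> omega
    · have hk : k < (trips φ).length := by
        rcases hu with hu | hu | hu
        · exact absurd hu.1 (by simp)
        · exact absurd hu.1 (by simp)
        · exact hu.2
      obtain ⟨a, b, c, e, ha, hb', hc, h'⟩ := hcon k hk
      simp only at hm
      rw [e] at hm
      simp only at hm
      subst hm
      simp only [e, OfNat.ofNat_ne_zero, OfNat.ofNat_ne_one, if_false, if_true]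
      split_ifs <;> omega
    · have hk : k < (trips φ).length := by
        rcases hu with hu | hu | hu
        · exact absurd hu.1 (by simp)
        · exact hu.2
        · exact absurd hu.1 (by simp)
      simp only at hm
      subst hm
      obtain ⟨a, b, c, e, ha, hb', hc, h'⟩ := hcon k hk
      simp only [e, one_ne_zero, OfNat.ofNat_ne_zero, OfNat.ofNat_ne_one, if_false, if_true]
      split_ifs <;> omega
  refine complete (B := Bs φ) (fun u => plc φ g u.1) (fun u => (rdi φ g u.1 : ℝ)) (8 * K)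
    (by omega) (fun u => hposle _ u.2) (fun u => ?_) ⟨el' φ (rt φ) le_rfl, ?_⟩ ?_ ?_
  · have := hradle _ u.2
    refine ⟨by exact_mod_cast this.1, ?_⟩
    have h2 := this.2
    push_cast
    exact_mod_cast h2
  · simp [plc, el', gK]
  · intro u v huv hE
    have := key1 _ u.2 _ v.2 (fun e => huv (Subtype.ext e)) hE
    rw [Int.natCast_natAbs] at this
    exact_mod_cast this
  · intro u v huv hS
    have := key2 _ u.2 _ v.2 (fun e => huv (Subtype.ext e)) hS
    rw [Int.natCast_natAbs] at this
    exact_mod_cast this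

end Pool.Agent.TH667.PCG
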