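import Pool.Agent.TH667.PCG.Core
import Pool.Agent.H495R3.CySat2

/-!
# Betweenness and sandwiched leaf powers
-/

set_option autoImplicit false

namespace Pool.Agent.TH667.PCG

open Pool.Agent.NPC Pool.Agent.H495R3.Cy

section

variable {B : Type} {f : B → B → ℝ}

/-- Along an induced path with five vertices. -/
theorem p5 (hs : ∀ u v, f u v = f v u) (h4 : FourPoint f) {a x b y c : B}
    (ax : f x a ≤ 0) (xb : f x b ≤ 0) (yb : f y b ≤ 0) (yc : f y c ≤ 0)
    (ab : 0 < f a b) (bc : 0 < f b c) (ay : 0 < f y a) (xc : 0 < f x c) (xy : 0 < f x y) :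
    f a b + f b c < f a c := by
  have k1 := h4 a b x y
  have k2 := h4 x y b c
  have k3 := h4 a y x c
  rw [le_max_iff] at k1 k2 k3
  have s1 := hs a x
  have s2 := hs b y
  have s3 := hs a y
  have s4 := hs b x
  have s5 := hs y x
  have s6 := hs c b
  rcases k1 with k1 | k1 <;> rcases k2 with k2 | k2 <;> rcases k3 with k3 | k3 <;> linarith

/-- The position along the path from `l` to `r`. -/
def key (f : B → B → ℝ) (l r e : B) : ℝ := f l e - f r e

theorem key_cases (hs : ∀ u v, f u v = f v u) (h4 : FourPoint f) {l r a b : B}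
    (ha : f l a + f a r < f l r) (hb : f l b + f b r < f l r) (ab : 0 < f a b) :
    (key f l r a < key f l r b ∧ f l b + f r a = f l r + f a b) ∨
    (key f l r b < key f l r a ∧ f l a + f r b = f l r + f a b) := by
  have k1 := h4 l r a b
  have k2 := h4 l a r b
  have k3 := h4 l b r a
  rw [le_max_iff] at k1 k2 k3
  have s1 := hs a r
  have s2 := hs b r
  have s3 := hs a b
  unfold key
  by_cases h : f l r + f a b ≤ f l b + f r a
  · left
    constructor
    · linarith
    · rcases k3 with k3 | k3 <;> linarith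
  · right
    push Not at h
    constructor
    · rcases k1 with k1 | k1 <;> linarith
    · rcases k1 with k1 | k1 <;> rcases k2 with k2 | k2 <;> linarith

theorem key_ne (hs : ∀ u v, f u v = f v u) (h4 : FourPoint f) {l r a b : B}
    (ha : f l a + f a r < f l r) (hb : f l b + f b r < f l r) (ab : 0 < f a b) :
    key f l r a ≠ key f l r b := by
  rcases key_cases hs h4 ha hb ab with h | h
  · exact ne_of_lt h.1
  · exact ne_of_gt h.1

/-- The element in the middle. -/
theorem key_mid (hs : ∀ u v, f u v = f v u) (h4 : FourPoint f) {l r a b c : B}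
    (ha : f l a + f a r < f l r) (hb : f l b + f b r < f l r) (hc : f l c + f c r < f l r)
    (ab : 0 < f a b) (bc : 0 < f b c) (ac : 0 < f a c)
    (h : (key f l r b < key f l r a ∧ key f l r a < key f l r c) ∨
      (key f l r c < key f l r a ∧ key f l r a < key f l r b)) :
    f a b + f a c < f b c := by
  have s1 := hs a r
  have s2 := hs b r
  have s3 := hs c r
  rcases key_cases hs h4 ha hb ab with h1 | h1 <;> rcases key_cases hs h4 hb hc bc with h2 | h2 <;>
    rcases key_cases hs h4 ha hc ac with h3 | h3 <;> rcases h with h | h <;> linarith [h.1, h.2,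
      h1.1, h1.2, h2.1, h2.2, h3.1, h3.2]

theorem between_of (hs : ∀ u v, f u v = f v u) (h4 : FourPoint f) {l r a b c : B}
    (ha : f l a + f a r < f l r) (hb : f l b + f b r < f l r) (hc : f l c + f c r < f l r)
    (ab : 0 < f a b) (bc : 0 < f b c) (ac : 0 < f a c) (h : f a b + f b c < f a c) :
    (key f l r a < key f l r b ∧ key f l r b < key f l r c) ∨
      (key f l r c < key f l r b ∧ key f l r b < key f l r a) := by
  have n1 := key_ne hs h4 ha hb ab
  have n2 := key_ne hs h4 hb hc bc
  have n3 := key_ne hs h4 ha hc ac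
  by_contra hcon
  push Not at hcon
  -- either `a` or `c` is in the middle
  have hm : ((key f l r b < key f l r a ∧ key f l r a < key f l r c) ∨
      (key f l r c < key f l r a ∧ key f l r a < key f l r b)) ∨
      ((key f l r a < key f l r c ∧ key f l r c < key f l r b) ∨
      (key f l r b < key f l r c ∧ key f l r c < key f l r a)) := by
    rcases lt_or_gt_of_ne n1 with e1 | e1 <;> rcases lt_or_gt_of_ne n2 with e2 | e2 <;>
      rcases lt_or_gt_of_ne n3 with e3 | e3
    · exact absurd (hcon.1 e1) (not_le.2 e2)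
    · exact absurd (hcon.1 e1) (not_le.2 e2)
    · exact Or.inr (Or.inl ⟨e3, e2⟩)
    · exact Or.inl (Or.inr ⟨e3, e1⟩)
    · exact Or.inl (Or.inl ⟨e1, e3⟩)
    · exact Or.inr (Or.inr ⟨e2, e3⟩)
    · exact absurd (hcon.2 e2) (not_le.2 e1)
    · exact absurd (hcon.2 e2) (not_le.2 e1)
  have s1 := hs a b
  have s2 := hs b c
  have s3 := hs a c
  rcases hm with hm | hm
  · have := key_mid hs h4 ha hb hc ab bc ac hm
    linarith
  · have := key_mid hs h4 (a := c) (b := a) (c := b) hc ha hb (by linarith) ab (by linarith) hm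
    linarith

end

/-- Real keys can be replaced by integers. -/
theorem exists_rank (M : ℕ) (k : ℕ → ℝ) : ∃ g : ℕ → ℤ, (∀ x, x ≠ 0 → g 0 < g x) ∧
    ∀ x y, x ≠ 0 → y ≠ 0 → x < M → k x < k y → g x < g y := by
  classical
  refine ⟨fun x => if x = 0 then 0 else
    (((Finset.range M).filter (fun y => k y < k x)).card : ℤ) + 1, ?_, ?_⟩
  · intro x hx
    simp only [if_true, if_neg hx]
    positivity
  · intro x y hx hy hxM hxy
    simp only [if_neg hx, if_neg hy, add_lt_add_iff_right, Nat.cast_lt]
    apply Finset.card_lt_card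
    rw [Finset.ssubset_iff_of_subset]
    · exact ⟨x, by simp [hxM, hxy], by simp⟩
    · intro z hz
      rw [Finset.mem_filter] at hz ⊢
      exact ⟨hz.1, hz.2.trans hxy⟩

variable {φ : List Cl}

/-- Satisfiability from real keys. -/
theorem sat_of_keys (hd : Distinct3 φ) (hb : Bounded3 φ) (k : ℕ → ℝ)
    (hinj : ∀ x y, x ≠ 0 → y ≠ 0 → x < 3 + 8 * φ.length → y < 3 + 8 * φ.length → x ≠ y →
      k x ≠ k y)
    (hbt : ∀ a b c, Trip φ a b c → (k a < k b ∧ k b < k c) ∨ (k c < k b ∧ k b < k a)) :
    SAT3 φ := by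
  obtain ⟨g, hg0, hg⟩ := exists_rank (3 + 8 * φ.length) k
  refine solv_to_sat hd hb ⟨g, ?_, ?_⟩
  · intro x hx y hy hxy
    have hx' : x < 3 + 8 * φ.length := (mem_els x).1 hx
    have hy' : y < 3 + 8 * φ.length := (mem_els y).1 hy
    by_contra hne
    by_cases x0 : x = 0
    · subst x0
      have := hg0 y (Ne.symm hne)
      omega
    · by_cases y0 : y = 0
      · subst y0
        have := hg0 x x0
        omega
      · rcases lt_or_gt_of_ne (hinj x y x0 y0 hx' hy' hne) with h | h
        · have := hg x y x0 y0 hx' h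
          omega
        · have := hg y x y0 x0 hy' h
          omega
  · intro q hq
    obtain ⟨a, b, c, ht, hq⟩ := (mem_quads q).1 hq
    obtain ⟨h1, h2, h3, h4, h5, h6, h7, h8, h9⟩ := trip_ok hd hb ht
    refine betw_of (hg0 a (by omega)) (hg0 b (by omega)) (hg0 c (by omega)) ?_ q hq
    rcases hbt a b c ht with h | h
    · exact Or.inl ⟨hg a b (by omega) (by omega) h7 h.1, hg b c (by omega) (by omega) h8 h.2⟩
    · exact Or.inr ⟨hg c b (by omega) (by omega) h9 h.1, hg b a (by omega) (by omega) h8 h.2⟩

/-- The integers of a satisfying assignment satisfy the betweenness constraints. -/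
theorem gS_between (hd : Distinct3 φ) (hb : Bounded3 φ) {τ : ℕ → Bool}
    (hτ : ∀ c ∈ φ, τ c.1.2 = c.1.1 ∨ τ c.2.1.2 = c.2.1.1 ∨ τ c.2.2.2 = c.2.2.1)
    {a b c : ℕ} (ht : Trip φ a b c) :
    (gS φ τ a < gS φ τ b ∧ gS φ τ b < gS φ τ c) ∨
      (gS φ τ c < gS φ τ b ∧ gS φ τ b < gS φ τ a) := by
  rcases ht with ⟨v, hv, rfl, rfl, rfl⟩ | ⟨k, hk, ht⟩
  · -- the middle is between the two literals
    rw [gS_one, gS_main (by omega) (by omega), gS_main (by omega) (by omega)]
    have e1 : Rt τ (3 + 2 * v) = !decide (τ v = false) := Rt_lc (false, v)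
    have e2 : Rt τ (3 + 2 * v + 1) = !decide (τ v = true) := Rt_lc (true, v)
    have hs := sc_pos (φ := φ)
    cases hv' : τ v with
    | true =>
      rw [hv'] at e1 e2
      right
      rw [P0_right (τ := τ) (x := 3 + 2 * v) (by simpa using e1),
        P0_left (τ := τ) (x := 3 + 2 * v + 1) (by simpa using e2)]
      constructor
      · exact mul_neg_of_neg_of_pos (by omega) hs
      · exact mul_pos (by omega) hs
    | false =>
      rw [hv'] at e1 e2
      left
      rw [P0_left (τ := τ) (x := 3 + 2 * v) (by simpa using e1),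
        P0_right (τ := τ) (x := 3 + 2 * v + 1) (by simpa using e2)]
      constructor
      · exact mul_neg_of_neg_of_pos (by omega) hs
      · exact mul_pos (by omega) hs
  · have t1 := aux_between (τ := τ) hd hb (j := 2 * k) (by omega)
    have t2 := aux_between (τ := τ) hd hb (j := 2 * k + 1) (by omega)
    have s1 := aux_side (τ := τ) (φ := φ) (2 * k) (by omega)
    have s2 := aux_side (τ := τ) (φ := φ) (2 * k + 1) (by omega)
    rw [hst_even hk] at t1 s1
    rw [hst_odd hk] at t2 s2
    have r1 := Rt_lc (τ := τ) φ[k].1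
    have r2 := Rt_lc (τ := τ) φ[k].2.1
    have r3 := Rt_lc (τ := τ) φ[k].2.2
    have rf : Rt τ 2 = true := by unfold Rt; rw [if_pos (by norm_num)]
    rcases ht with ⟨rfl, rfl, rfl⟩ | ⟨rfl, rfl, rfl⟩ | ⟨rfl, rfl, rfl⟩
    · split_ifs at t1
      · exact t1
      · exact t1.symm
      · exact t1
    · rw [show 3 + 6 * φ.length + 2 * k + 1 = 3 + 6 * φ.length + (2 * k + 1) by omega]
      split_ifs at t2
      · exact t2.symm
      · exact t2
    · rw [gS_one, show 3 + 6 * φ.length + 2 * k + 1 = 3 + 6 * φ.length + (2 * k + 1) by omega]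
      by_cases l1 : τ φ[k].1.2 = φ[k].1.1
      · rw [if_pos l1] at s1
        rw [if_pos (Or.inl l1)] at s2
        left
        exact ⟨s1.2 (by simp [r1, l1]), s2.1 rf⟩
      · by_cases l2 : τ φ[k].2.1.2 = φ[k].2.1.1
        · rw [if_neg l1, if_pos l2] at s1
          rw [if_pos (Or.inr l2)] at s2
          left
          exact ⟨s1.2 (by simp [r2, l2]), s2.1 rf⟩
        · have l3 : τ φ[k].2.2.2 = φ[k].2.2.1 := by
            rcases hτ _ (List.getElem_mem hk) with h | h | h
            · exact absurd h l1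
            · exact absurd h l2
            · exact h
          rw [if_neg l1, if_neg l2] at s1
          rw [if_neg (by tauto)] at s2
          right
          exact ⟨s2.2 (by simp [r3, l3]), s1.1 (by simp [r1, l1])⟩

end Pool.Agent.TH667.PCG
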