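import Pool.Agent.TH667.PCG.Defs
import Pool.Agent.TH667.PCG.Build

/-!
# Trees made of a path, stems and leaves
-/

set_option autoImplicit false

namespace Pool.Agent.TH667.PCG

open SimpleGraph

/-- The distance of two places: points of the path, or ends of stems. -/
noncomputable def hubD {L : ℕ} {R : Type} [DecidableEq R] (c : ℝ) (sp : R → Fin (L + 1))
    (h : R → ℝ) : Fin (L + 1) ⊕ R → Fin (L + 1) ⊕ R → ℝ
  | Sum.inl i, Sum.inl j => c * |(i.1 : ℝ) - (j.1 : ℝ)|
  | Sum.inr s, Sum.inl j => h s + c * |((sp s).1 : ℝ) - (j.1 : ℝ)|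
  | Sum.inl i, Sum.inr s => h s + c * |((sp s).1 : ℝ) - (i.1 : ℝ)|
  | Sum.inr s, Sum.inr t => if s = t then 0 else
      h s + h t + c * |((sp s).1 : ℝ) - ((sp t).1 : ℝ)|

theorem two_le_ncard {W : Type} [Finite W] {s : Set W} {a b : W} (ha : a ∈ s) (hb : b ∈ s)
    (hab : a ≠ b) : ¬ s.ncard ≤ 1 := by
  intro h
  exact hab ((Set.ncard_le_one (Set.toFinite s)).1 h a ha b hb)

theorem realize {V R : Type} [Finite V] [Finite R] [DecidableEq R] {L : ℕ} (hL : 1 ≤ L) {c : ℝ}
    (hc : 0 < c) (sp : R → Fin (L + 1)) (h : R → ℝ) (hh : ∀ s, 0 < h s)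
    (att : V → Fin (L + 1) ⊕ R) (l : V → ℝ) (hl : ∀ v, 0 < l v)
    (hst : ∀ s, ∃ v, att v = Sum.inr s)
    (hend : ∀ i : Fin (L + 1), i.1 = 0 ∨ i.1 = L →
      (∃ v, att v = Sum.inl i) ∨ ∃ s, sp s = i) :
    ∃ t : LeafTree V, ∀ u v, u ≠ v → t.dist u v = l u + l v + hubD c sp h (att u) (att v) := by
  have h0 := spine_isTree L
  have h1 : (attG (spine L) sp).IsTree := attG_isTree h0
  have h2 : (attG (attG (spine L) sp) att).IsTree := attG_isTree h1
  have p0 : ∀ e ∈ (spine L).edgeSet, 0 < (fun _ : Sym2 (Fin (L + 1)) => c) e := fun _ _ => hc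
  have p1 := attW_pos (att := sp) p0 hh
  have p2 := attW_pos (att := att) p1 hl
  refine ⟨⟨(Fin (L + 1) ⊕ R) ⊕ V, inferInstance, attG (attG (spine L) sp) att, h2,
    attW (attW (fun _ => c) h) l, p2, Sum.inr, Sum.inr_injective, ?_⟩, ?_⟩
  · intro x
    constructor
    · rintro ⟨v, rfl⟩
      have : (attG (attG (spine L) sp) att).neighborSet (Sum.inr v) ⊆ {Sum.inl (att v)} := by
        intro y hy
        rw [mem_neighborSet] at hy
        rcases y with a | u
        · have : a = att v := hy
          rw [this]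
          rfl
        · exact False.elim hy
      calc _ ≤ ({Sum.inl (att v)} : Set ((Fin (L + 1) ⊕ R) ⊕ V)).ncard :=
            Set.ncard_le_ncard this (Set.toFinite _)
        _ = 1 := Set.ncard_singleton _
    · intro hx
      rcases x with (i | s) | v
      · exfalso
        by_cases hi : i.1 = 0 ∨ i.1 = L
        · obtain ⟨j, hj⟩ : ∃ j : Fin (L + 1), (spine L).Adj i j := by
            rcases hi with hi | hi
            · exact ⟨⟨1, by omega⟩, Or.inl (by simp [hi])⟩
            · exact ⟨⟨L - 1, by omega⟩, Or.inr (by simp only; omega)⟩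
          have hj' : (Sum.inl (Sum.inl j) : (Fin (L + 1) ⊕ R) ⊕ V) ∈
              (attG (attG (spine L) sp) att).neighborSet (Sum.inl (Sum.inl i)) := hj
          rcases hend i hi with ⟨v, hv⟩ | ⟨s, hs⟩
          · have hv' : (Sum.inr v : (Fin (L + 1) ⊕ R) ⊕ V) ∈
              (attG (attG (spine L) sp) att).neighborSet (Sum.inl (Sum.inl i)) := by
              rw [mem_neighborSet]
              exact hv.symm
            exact two_le_ncard hj' hv' (by simp) hx
          · have hv' : (Sum.inl (Sum.inr s) : (Fin (L + 1) ⊕ R) ⊕ V) ∈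
              (attG (attG (spine L) sp) att).neighborSet (Sum.inl (Sum.inl i)) := by
              rw [mem_neighborSet]
              exact hs.symm
            exact two_le_ncard hj' hv' (by simp) hx
        · push Not at hi
          have h3 : (Sum.inl (Sum.inl ⟨i.1 - 1, by omega⟩) : (Fin (L + 1) ⊕ R) ⊕ V) ∈
              (attG (attG (spine L) sp) att).neighborSet (Sum.inl (Sum.inl i)) := by
            rw [mem_neighborSet]
            exact Or.inr (by simp only; omega)
          have h4 : (Sum.inl (Sum.inl ⟨i.1 + 1, by omega⟩) : (Fin (L + 1) ⊕ R) ⊕ V) ∈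
              (attG (attG (spine L) sp) att).neighborSet (Sum.inl (Sum.inl i)) := by
            rw [mem_neighborSet]
            exact Or.inl rfl
          refine two_le_ncard h3 h4 ?_ hx
          intro he
          have := Sum.inl_injective (Sum.inl_injective he)
          rw [Fin.mk.injEq] at this
          omega
      · exfalso
        obtain ⟨v, hv⟩ := hst s
        have h3 : (Sum.inl (Sum.inl (sp s)) : (Fin (L + 1) ⊕ R) ⊕ V) ∈
            (attG (attG (spine L) sp) att).neighborSet (Sum.inl (Sum.inr s)) := by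
          rw [mem_neighborSet]
          rfl
        have h4 : (Sum.inr v : (Fin (L + 1) ⊕ R) ⊕ V) ∈
            (attG (attG (spine L) sp) att).neighborSet (Sum.inl (Sum.inr s)) := by
          rw [mem_neighborSet]
          exact hv.symm
        exact two_le_ncard h3 h4 (by simp) hx
      · exact ⟨v, rfl⟩
  · intro u v huv
    have e : ∀ a b : Fin (L + 1) ⊕ R, tdist h1 (attW (fun _ => c) h) a b =
        hubD c sp h a b := by
      intro a b
      rcases a with i | s <;> rcases b with j | t
      · rw [tdist_inl h0 h1, spine_dist]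
        rfl
      · rw [tdist_comm, tdist_rl h0 h1, spine_dist]
        rfl
      · rw [tdist_rl h0 h1, spine_dist]
        rfl
      · by_cases hst : s = t
        · subst hst
          rw [tdist_self]
          simp [hubD]
        · rw [tdist_rr h0 h1 hst, spine_dist]
          simp [hubD, hst]
    change tdist h2 _ (Sum.inr u) (Sum.inr v) = _
    rw [tdist_rr h1 h2 huv, e]

end Pool.Agent.TH667.PCG
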