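import Pool.Agent.TH667.PCG.Inst2
import Pool.Agent.H495R3.CyPoly

/-!
# The reduction, and its polynomial running time
-/

set_option autoImplicit false

namespace Pool.Agent.TH667.PCG

open Pool.Agent.NPC Pool.Agent.H495R3.Cy SimpleGraph

theorem GenPCG.of_equiv {V V' : Type} (e : V ≃ V') {G S : SimpleGraph V} {G' S' : SimpleGraph V'}
    (hG : ∀ u v, G.Adj u v ↔ G'.Adj (e u) (e v)) (hS : ∀ u v, S.Adj u v ↔ S'.Adj (e u) (e v))
    (h : GenPCG G S) : GenPCG G' S' := by
  obtain ⟨t, lo, hi, h0, h1, h2, h3⟩ := h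
  refine ⟨⟨t.W, t.fin, t.T, t.isTree, t.w, t.w_pos, fun v => t.leaf (e.symm v),
    t.leaf_inj.comp e.symm.injective, ?_⟩, lo, hi, h0, h1, ?_, ?_⟩
  · intro x
    rw [← t.leaf_iff]
    constructor
    · rintro ⟨v, rfl⟩
      exact ⟨_, rfl⟩
    · rintro ⟨v, rfl⟩
      exact ⟨e v, by simp⟩
  · intro u v huv
    have := h2 (e.symm u) (e.symm v) ((hG _ _).2 (by simpa using huv))
    exact ⟨fun e' => this.1 (by rw [e']), this.2⟩
  · intro u v huv hadj
    refine h3 (e.symm u) (e.symm v) ((hS _ _).2 (by simpa using huv)) ⟨?_, hadj.2⟩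
    intro e'
    exact hadj.1 (e.symm.injective e')

/-- The codes of the vertices. -/
def cd {φ : List Cl} : Lab (Bs φ) → ℕ × (ℕ × ℕ)
  | .a u => (0, u.1)
  | .b u => (1, u.1)
  | .p i u => (2 + i.1, u.1)
  | .g i => (6 + i.1, (0, 0))

/-- The list of the codes. -/
def labs (φ : List Cl) : List (ℕ × (ℕ × ℕ)) :=
  (List.range 6) ×ˢ (base φ) ++ (List.range 4).map (fun i => (6 + i, (0, 0)))

/-- The edges between codes. -/
def adjE (φ : List Cl) (x y : ℕ × (ℕ × ℕ)) : Bool :=
  (decide (x.1 = 0) && (decide (y.1 = 0) && bEb φ x.2 y.2)) ||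
  ((decide (x.1 = 0) && (decide (y.1 = 1) && (!(decide (x.2 = y.2)) &&
    (bSb φ x.2 y.2 || bSb φ y.2 x.2)))) ||
  ((decide (2 ≤ x.1) && (decide (x.1 < 6) && (decide (y.1 < 2) && decide (x.2 = y.2)))) ||
  (((decide (x.1 = 2) && decide (y.1 = 3) || decide (x.1 = 4) && decide (y.1 = 5)) &&
    decide (x.2 = y.2)) ||
  ((decide (6 ≤ x.1) && decide (y.1 = 1)) ||
  (decide (x.1 = 6) && decide (y.1 = 7) || decide (x.1 = 8) && decide (y.1 = 9))))))

/-- The forbidden pairs of codes. -/
def adjS (φ : List Cl) (x y : ℕ × (ℕ × ℕ)) : Bool :=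
  (decide (x.1 = 0) && (decide (y.1 = 0) && bSb φ x.2 y.2)) ||
  ((decide (x.1 = 1) && (decide (y.1 = 1) && bSb φ x.2 y.2)) ||
  ((decide (x.1 = 0) && (decide (y.1 = 1) && decide (x.2 = y.2))) ||
  ((((decide (x.1 = 2) || decide (x.1 = 3)) && (decide (y.1 = 4) || decide (y.1 = 5))) &&
    decide (x.2 = y.2)) ||
  ((decide (x.1 = 6) || decide (x.1 = 7)) && (decide (y.1 = 8) || decide (y.1 = 9))))))

variable {φ : List Cl}

theorem cd_inj : Function.Injective (cd (φ := φ)) := by
  intro x y h
  rcases x with u | u | ⟨i, u⟩ | i <;> rcases y with v | v | ⟨j, v⟩ | j <;>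
    simp only [cd, Prod.mk.injEq] at h
  · rw [Subtype.ext h.2]
  · omega
  · omega
  · omega
  · omega
  · rw [Subtype.ext h.2]
  · omega
  · omega
  · omega
  · omega
  · rw [Subtype.ext h.2, Fin.ext (show i.1 = j.1 by omega)]
  · omega
  · omega
  · omega
  · omega
  · rw [Fin.ext (show i.1 = j.1 by omega)]

theorem mem_labs (z : ℕ × (ℕ × ℕ)) : z ∈ labs φ ↔ ∃ x : Lab (Bs φ), cd x = z := by
  obtain ⟨t, u⟩ := z
  unfold labs
  rw [List.mem_append, List.mem_product, List.mem_map]
  simp only [List.mem_range, Prod.mk.injEq]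
  constructor
  · rintro (⟨h1, h2⟩ | ⟨i, hi, h1, h2⟩)
    · by_cases t0 : t = 0
      · exact ⟨.a ⟨u, h2⟩, by simp [cd, t0]⟩
      · by_cases t1 : t = 1
        · exact ⟨.b ⟨u, h2⟩, by simp [cd, t1]⟩
        · refine ⟨.p ⟨t - 2, by omega⟩ ⟨u, h2⟩, ?_⟩
          simp only [cd, Prod.mk.injEq, and_true]
          omega
    · refine ⟨.g ⟨i, hi⟩, ?_⟩
      simp only [cd, Prod.mk.injEq]
      exact ⟨h1, h2⟩
  · rintro ⟨x, hx⟩
    rcases x with v | v | ⟨i, v⟩ | i <;> simp only [cd, Prod.mk.injEq] at hx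
    · left
      rw [← hx.1, ← hx.2]
      exact ⟨by norm_num, v.2⟩
    · left
      rw [← hx.1, ← hx.2]
      exact ⟨by norm_num, v.2⟩
    · left
      rw [← hx.1, ← hx.2]
      exact ⟨by omega, v.2⟩
    · right
      exact ⟨i.1, i.2, hx.1, hx.2⟩

theorem base_nodup (φ : List Cl) : (base φ).Nodup := by
  unfold base
  rw [List.nodup_append, List.nodup_append]
  refine ⟨List.nodup_range.map (fun a b h => by simpa using h),
    ⟨List.nodup_range.map (fun a b h => by simpa using h),
      List.nodup_range.map (fun a b h => by simpa using h), ?_⟩, ?_⟩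
  · intro x hx y hy hxy
    subst hxy
    simp only [List.mem_map] at hx hy
    obtain ⟨_, _, rfl⟩ := hx
    obtain ⟨_, _, h⟩ := hy
    simp at h
  · intro x hx y hy hxy
    subst hxy
    simp only [List.mem_append, List.mem_map] at hx hy
    obtain ⟨_, _, rfl⟩ := hx
    rcases hy with ⟨_, _, h⟩ | ⟨_, _, h⟩ <;> simp at h

theorem labs_nodup (φ : List Cl) : (labs φ).Nodup := by
  unfold labs
  rw [List.nodup_append]
  refine ⟨List.nodup_range.product (base_nodup φ),
    List.nodup_range.map (fun a b h => by simpa using h), ?_⟩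
  intro x hx y hy hxy
  subst hxy
  rw [List.mem_map] at hy
  obtain ⟨i, -, rfl⟩ := hy
  rw [List.mem_product] at hx
  have := List.mem_range.1 hx.1
  omega

theorem adjE_iff (x y : ℕ × (ℕ × ℕ)) : adjE φ x y = true ↔
    (x.1 = 0 ∧ y.1 = 0 ∧ bEb φ x.2 y.2 = true) ∨
    (x.1 = 0 ∧ y.1 = 1 ∧ x.2 ≠ y.2 ∧ (bSb φ x.2 y.2 = true ∨ bSb φ y.2 x.2 = true)) ∨
    (2 ≤ x.1 ∧ x.1 < 6 ∧ y.1 < 2 ∧ x.2 = y.2) ∨
    (((x.1 = 2 ∧ y.1 = 3) ∨ (x.1 = 4 ∧ y.1 = 5)) ∧ x.2 = y.2) ∨
    (6 ≤ x.1 ∧ y.1 = 1) ∨ (x.1 = 6 ∧ y.1 = 7) ∨ (x.1 = 8 ∧ y.1 = 9) := by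
  simp [adjE]

theorem adjS_iff (x y : ℕ × (ℕ × ℕ)) : adjS φ x y = true ↔
    (x.1 = 0 ∧ y.1 = 0 ∧ bSb φ x.2 y.2 = true) ∨
    (x.1 = 1 ∧ y.1 = 1 ∧ bSb φ x.2 y.2 = true) ∨
    (x.1 = 0 ∧ y.1 = 1 ∧ x.2 = y.2) ∨
    (((x.1 = 2 ∨ x.1 = 3) ∧ (y.1 = 4 ∨ y.1 = 5)) ∧ x.2 = y.2) ∨
    ((x.1 = 6 ∨ x.1 = 7) ∧ (y.1 = 8 ∨ y.1 = 9)) := by
  simp [adjS]

theorem adjE_cd (x y : Lab (Bs φ)) : adjE φ (cd x) (cd y) = true ↔
    LE (bE φ) (bS φ) x y := by
  rw [adjE_iff]
  rcases x with u | u | ⟨i, u⟩ | i <;> rcases y with v | v | ⟨j, v⟩ | j <;>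
    simp only [cd, LE, bE, bS]
  · simp
  · simp [Subtype.ext_iff]
  · first | (simp; done) | (simp; omega)
  · first | (simp; done) | (simp; omega)
  · first | (simp; done) | (simp; omega)
  · first | (simp; done) | (simp; omega)
  · first | (simp; done) | (simp; omega)
  · first | (simp; done) | (simp; omega)
  · rw [Subtype.ext_iff]
    have hi := i.2
    constructor
    · rintro (h | h | h | h | h | h | h)
      · omega
      · omega
      · exact h.2.2.2
      · omega
      · omega
      · omega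
      · omega
    · intro h1
      exact Or.inr (Or.inr (Or.inl ⟨by omega, by omega, by omega, h1⟩))
  · rw [Subtype.ext_iff]
    have hi := i.2
    constructor
    · rintro (h | h | h | h | h | h | h)
      · omega
      · omega
      · exact h.2.2.2
      · omega
      · omega
      · omega
      · omega
    · intro h1
      exact Or.inr (Or.inr (Or.inl ⟨by omega, by omega, by omega, h1⟩))
  · rw [Subtype.ext_iff, Fin.ext_iff, Fin.ext_iff, Fin.ext_iff, Fin.ext_iff]
    have hi := i.2
    have hj := j.2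
    simp only [Fin.val_zero, Fin.val_one, Fin.val_two, Fin.isValue,
      show ((3 : Fin 4) : ℕ) = 3 from rfl]
    constructor
    · rintro (h | h | h | h | h | h | h)
      · omega
      · omega
      · omega
      · exact ⟨h.2, by omega⟩
      · omega
      · omega
      · omega
    · rintro ⟨h1, h2⟩
      exact Or.inr (Or.inr (Or.inr (Or.inl ⟨by omega, h1⟩)))
  · have hi := i.2
    have hj := j.2
    constructor
    · rintro (h | h | h | h | h | h | h) <;> omega
    · exact False.elim
  · have hi := i.2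
    constructor
    · rintro (h | h | h | h | h | h | h) <;> omega
    · exact False.elim
  · have hi := i.2
    exact iff_of_true (Or.inr (Or.inr (Or.inr (Or.inr (Or.inl ⟨by omega, trivial⟩))))) trivial
  · have hi := i.2
    have hj := j.2
    constructor
    · rintro (h | h | h | h | h | h | h) <;> omega
    · exact False.elim
  · rw [Fin.ext_iff, Fin.ext_iff, Fin.ext_iff, Fin.ext_iff]
    have hi := i.2
    have hj := j.2
    simp only [Fin.val_zero, Fin.val_one, Fin.val_two, Fin.isValue,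
      show ((3 : Fin 4) : ℕ) = 3 from rfl]
    omega

theorem adjS_cd (x y : Lab (Bs φ)) : adjS φ (cd x) (cd y) = true ↔ LS (bS φ) x y := by
  rw [adjS_iff]
  rcases x with u | u | ⟨i, u⟩ | i <;> rcases y with v | v | ⟨j, v⟩ | j <;>
    simp only [cd, LS, bS]
  · simp
  · simp [Subtype.ext_iff]
  · have hj := j.2
    constructor
    · rintro (h | h | h | h | h) <;> omega
    · exact False.elim
  · have hj := j.2
    constructor
    · rintro (h | h | h | h | h) <;> omega
    · exact False.elim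
  · simp
  · simp
  · have hj := j.2
    constructor
    · rintro (h | h | h | h | h) <;> omega
    · exact False.elim
  · have hj := j.2
    constructor
    · rintro (h | h | h | h | h) <;> omega
    · exact False.elim
  · have hi := i.2
    constructor
    · rintro (h | h | h | h | h) <;> omega
    · exact False.elim
  · have hi := i.2
    constructor
    · rintro (h | h | h | h | h) <;> omega
    · exact False.elim
  · rw [Subtype.ext_iff]
    have hi := i.2
    have hj := j.2
    constructor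
    · rintro (h | h | h | h | h)
      · omega
      · omega
      · omega
      · exact ⟨h.2, by omega, by omega⟩
      · omega
    · rintro ⟨h1, h2⟩
      exact Or.inr (Or.inr (Or.inr (Or.inl ⟨by omega, h1⟩)))
  · have hi := i.2
    have hj := j.2
    constructor
    · rintro (h | h | h | h | h) <;> omega
    · exact False.elim
  · have hi := i.2
    constructor
    · rintro (h | h | h | h | h) <;> omega
    · exact False.elim
  · have hi := i.2
    constructor
    · rintro (h | h | h | h | h) <;> omega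
    · exact False.elim
  · have hi := i.2
    have hj := j.2
    constructor
    · rintro (h | h | h | h | h) <;> omega
    · exact False.elim
  · have hi := i.2
    have hj := j.2
    constructor
    · rintro (h | h | h | h | h) <;> omega
    · intro h
      exact Or.inr (Or.inr (Or.inr (Or.inr (by omega))))

/-- The forbidden pairs are not edges. -/
theorem LS_not_LE (hd : Distinct3 φ) (hb : Bounded3 φ) {x y : Lab (Bs φ)} (hxy : x ≠ y)
    (h : LS (bS φ) x y) : ¬ (LE (bE φ) (bS φ) x y ∨ LE (bE φ) (bS φ) y x) := by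
  have key : ∀ u v : Bs φ, bS φ u v → ¬ bE φ u v ∧ ¬ bE φ v u := by
    rintro ⟨⟨i, k⟩, hu⟩ ⟨⟨j, m⟩, hv⟩ h
    have h' := (bSb_iff _ _).1 h
    simp only at h'
    rw [mem_base] at hu hv
    simp only at hu hv
    refine ⟨fun hE => ?_, fun hE => ?_⟩
    · have hE' := (bEb_iff _ _).1 hE
      simp only at hE'
      rcases h' with h' | h' | h' | h'
      · rcases hE' with hE' | hE' <;> omega
      · have hk : k < (trips φ).length := by
          rcases hu with hu | hu | hu <;> omega
        obtain ⟨a, b, c, e, n1, n2, n3, -⟩ := tr_spec hd hb hk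
        rw [e] at h' hE'
        simp only at h' hE'
        rcases hE' with hE' | hE' <;> omega
      · have hk : k < (trips φ).length := by
          rcases hu with hu | hu | hu <;> omega
        obtain ⟨a, b, c, e, n1, n2, n3, -⟩ := tr_spec hd hb hk
        rw [e] at h' hE'
        simp only at h' hE'
        rcases hE' with hE' | hE' <;> omega
      · rcases hE' with hE' | hE' <;> omega
    · have hE' := (bEb_iff _ _).1 hE
      simp only at hE'
      rcases h' with h' | h' | h' | h' <;> rcases hE' with hE' | hE' <;> omega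
  rcases x with u | u | ⟨i, u⟩ | i <;> rcases y with v | v | ⟨j, v⟩ | j <;>
    simp only [LS] at h <;> simp only [LE] <;> rintro (h' | h')
  · exact (key u v h).1 h'
  · exact (key u v h).2 h'
  · exact h'.1 h
  · exact h'
  · exact h'
  · exact h'
  · have h3 := h'.2
    rw [Fin.ext_iff, Fin.ext_iff, Fin.ext_iff, Fin.ext_iff] at h3
    simp only [Fin.val_zero, Fin.val_one, Fin.val_two, Fin.isValue,
      show ((3 : Fin 4) : ℕ) = 3 from rfl] at h3
    omega
  · have h3 := h'.2
    rw [Fin.ext_iff, Fin.ext_iff, Fin.ext_iff, Fin.ext_iff] at h3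
    simp only [Fin.val_zero, Fin.val_one, Fin.val_two, Fin.isValue,
      show ((3 : Fin 4) : ℕ) = 3 from rfl] at h3
    omega
  · rw [Fin.ext_iff, Fin.ext_iff, Fin.ext_iff, Fin.ext_iff] at h'
    simp only [Fin.val_zero, Fin.val_one, Fin.val_two, Fin.isValue,
      show ((3 : Fin 4) : ℕ) = 3 from rfl] at h'
    omega
  · rw [Fin.ext_iff, Fin.ext_iff, Fin.ext_iff, Fin.ext_iff] at h'
    simp only [Fin.val_zero, Fin.val_one, Fin.val_two, Fin.isValue,
      show ((3 : Fin 4) : ℕ) = 3 from rfl] at h'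
    omega

/-- The reduction. -/
def red (φ : List Cl) : List (List Bool) × List (List Bool) :=
  (H622R2.mat (labs φ) (adjE φ), H622R2.mat (labs φ) (adjS φ))

theorem red_correct (hd : Distinct3 φ) (hb : Bounded3 φ) :
    SAT3 φ ↔ GenPCGRecognition (red φ) := by
  classical
  obtain ⟨e, he⟩ := R671.exists_equiv (labs φ) (labs_nodup φ) (cd (φ := φ)) cd_inj
    (fun z => mem_labs z)
  have hl1 : (red φ).1.length = (labs φ).length := H622R2.mat_length _ _
  have hl2 : (red φ).2.length = (labs φ).length := H622R2.mat_length _ _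
  let e' : Fin (red φ).1.length ≃ Lab (Bs φ) := (finCongr hl1).trans e
  have hcd : ∀ i : Fin (red φ).1.length, cd (e' i) = (labs φ)[i.1]'(by rw [← hl1]; exact i.2) :=
    fun i => he (finCongr hl1 i)
  have hne : ∀ i j : Fin (red φ).1.length, i ≠ j ↔ e' i ≠ e' j := fun i j =>
    (e'.injective.ne_iff).symm
  have hE : ∀ i j, (graphOf (red φ).1.length (red φ).1).Adj i j ↔
      (fromRel (LE (bE φ) (bS φ))).Adj (e' i) (e' j) := by
    intro i j
    rw [fromRel_adj, ← adjE_cd, ← adjE_cd, hcd, hcd, ← hne]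
    have hi : i.1 < (labs φ).length := by rw [← hl1]; exact i.2
    have hj : j.1 < (labs φ).length := by rw [← hl1]; exact j.2
    change (i ≠ j ∧ (H622R2.entry (H622R2.mat (labs φ) (adjE φ)) i j = true ∨
      H622R2.entry (H622R2.mat (labs φ) (adjE φ)) j i = true)) ↔ _
    rw [H622R2.entry_mat _ _ _ _ hi hj, H622R2.entry_mat _ _ _ _ hj hi]
  have hS : ∀ i j, (graphOf (red φ).1.length (red φ).2).Adj i j ↔
      (fromRel (LS (bS φ))).Adj (e' i) (e' j) := by
    intro i j
    rw [fromRel_adj, ← adjS_cd, ← adjS_cd, hcd, hcd, ← hne]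
    have hi : i.1 < (labs φ).length := by rw [← hl1]; exact i.2
    have hj : j.1 < (labs φ).length := by rw [← hl1]; exact j.2
    change (i ≠ j ∧ (H622R2.entry (H622R2.mat (labs φ) (adjS φ)) i j = true ∨
      H622R2.entry (H622R2.mat (labs φ) (adjS φ)) j i = true)) ↔ _
    rw [H622R2.entry_mat _ _ _ _ hi hj, H622R2.entry_mat _ _ _ _ hj hi]
  constructor
  · intro h
    refine ⟨by rw [hl1, hl2], ?_, ?_⟩
    · intro i j h1 h2
      rw [hS, fromRel_adj] at h1
      rw [hE, fromRel_adj] at h2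
      rcases h1.2 with h3 | h3
      · exact LS_not_LE hd hb h1.1 h3 h2.2
      · exact LS_not_LE hd hb h1.1.symm h3 h2.2.symm
    · refine GenPCG.of_equiv e'.symm ?_ ?_ (inst_complete hd hb h)
      · intro u v
        rw [hE]
        simp
      · intro u v
        rw [hS]
        simp
  · rintro ⟨-, -, h⟩
    exact inst_sound hd hb (GenPCG.of_equiv e' hE hS h)

section PolyTime

variable {α : Type} [TEnc α]

theorem trips_poly {f : α → List Cl} (hf : Poly f) : Poly (fun a => trips (f a)) := by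
  unfold trips
  refine NPC.Poly.append (NPC.Poly.map (F := fun (_ : α) v => (3 + 2 * v, 1, 3 + 2 * v + 1))
    (range3_poly hf) (by fun_prop)) ?_
  refine NPC.Poly.append ?_ ?_
  · exact NPC.Poly.flatMap (F := fun (a : α) (p : Cl × ℕ) =>
      [(lc p.1.1, 3 + 6 * (f a).length + 2 * p.2, lc p.1.2.1),
      (lc p.1.2.2, 3 + 6 * (f a).length + 2 * p.2 + 1, 2),
      (3 + 6 * (f a).length + 2 * p.2, 1, 3 + 6 * (f a).length + 2 * p.2 + 1)])
      (by fun_prop) (by fun_prop)
  · refine NPC.Poly.map (F := fun (a : α) e => (0, e + 1, 3 + 8 * (f a).length)) ?_ (by fun_prop)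
    exact ((UPoly.const 2).add ((UPoly.const 8).mul (UPoly.length hf))).range

attribute [fun_prop] trips_poly

theorem tr_poly {f : α → List Cl} {k : α → ℕ} (hf : Poly f) (hk : Poly k) :
    Poly (fun a => tr (f a) (k a)) := by
  unfold tr
  fun_prop

attribute [fun_prop] tr_poly

theorem base_poly {f : α → List Cl} (hf : Poly f) : Poly (fun a => base (f a)) := by
  unfold base rt
  refine NPC.Poly.append (NPC.Poly.map (F := fun (_ : α) e => ((0 : ℕ), e)) ?_ (by fun_prop)) ?_
  · exact (((UPoly.const 3).add ((UPoly.const 8).mul (UPoly.length hf))).add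
      (UPoly.const 1)).range
  refine NPC.Poly.append (NPC.Poly.map (F := fun (_ : α) e => ((1 : ℕ), e)) ?_ (by fun_prop))
    (NPC.Poly.map (F := fun (_ : α) e => ((2 : ℕ), e)) ?_ (by fun_prop))
  · exact (UPoly.length (trips_poly hf)).range
  · exact (UPoly.length (trips_poly hf)).range

attribute [fun_prop] base_poly

theorem labs_poly {f : α → List Cl} (hf : Poly f) : Poly (fun a => labs (f a)) := by
  unfold labs
  fun_prop

theorem bEb_poly {f : α → List Cl} {u v : α → ℕ × ℕ} (hf : Poly f) (hu : Poly u) (hv : Poly v) :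
    Poly (fun a => bEb (f a) (u a) (v a)) := by
  unfold bEb
  fun_prop

theorem bSb_poly {f : α → List Cl} {u v : α → ℕ × ℕ} (hf : Poly f) (hu : Poly u) (hv : Poly v) :
    Poly (fun a => bSb (f a) (u a) (v a)) := by
  unfold bSb
  fun_prop

attribute [fun_prop] bEb_poly bSb_poly

theorem adjE_poly {f : α → List Cl} {x y : α → ℕ × (ℕ × ℕ)} (hf : Poly f) (hx : Poly x)
    (hy : Poly y) : Poly (fun a => adjE (f a) (x a) (y a)) := by
  unfold adjE
  fun_prop

theorem adjS_poly {f : α → List Cl} {x y : α → ℕ × (ℕ × ℕ)} (hf : Poly f) (hx : Poly x)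
    (hy : Poly y) : Poly (fun a => adjS (f a) (x a) (y a)) := by
  unfold adjS
  fun_prop

attribute [fun_prop] adjE_poly adjS_poly

theorem red_poly : Poly red :=
  NPC.Poly.pair
    (H622R2.mat_poly (l := fun φ => labs φ) (adj := fun φ => adjE φ) (labs_poly NPC.Poly.id)
      (by fun_prop))
    (H622R2.mat_poly (l := fun φ => labs φ) (adj := fun φ => adjS φ) (labs_poly NPC.Poly.id)
      (by fun_prop))

/-- Generalized PCG recognition is hard. -/
theorem hardI_GenPCG : HardI GenPCGRecognition :=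
  (hardPr_SAT3b.trans (Pr' := fun _ => True) red_poly (fun _ _ => trivial)
    (fun _ h => red_correct h.1 h.2.1)).toHardI

end PolyTime

end Pool.Agent.TH667.PCG
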